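import Pool.Agent.K4H86.OR.Exam

/-!
# Structures with small bases, and the isomorphism problem for quasigroups
-/

set_option autoImplicit false
set_option linter.unusedSectionVars false

namespace Pool.Agent.K4H86.OR

/-- The structure has a base of at most `t` elements: only the trivial automorphism fixes all of
them. -/
def HasBase (t : ℕ) {τ : Voc} {A : Type} (𝒜 : Str τ A) : Prop :=
  ∃ S : Finset A, S.card ≤ t ∧ ∀ e : A ≃ A, IsIso 𝒜 𝒜 e → (∀ x ∈ S, e x = x) → e = Equiv.refl A

theorem IsIso.symm' {τ : Voc} {A B : Type} {𝒜 : Str τ A} {ℬ : Str τ B} {e : A ≃ B}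
    (h : IsIso 𝒜 ℬ e) : IsIso ℬ 𝒜 e.symm := by
  intro i x
  have h1 := h i fun j => e.symm (x j)
  simp only [Equiv.apply_symm_apply] at h1
  exact h1.symm

theorem IsIso.trans' {τ : Voc} {A B C : Type} {𝒜 : Str τ A} {ℬ : Str τ B} {𝒞 : Str τ C}
    {e : A ≃ B} {e' : B ≃ C} (h : IsIso 𝒜 ℬ e) (h' : IsIso ℬ 𝒞 e') :
    IsIso 𝒜 𝒞 (e.trans e') := fun i x => (h i x).trans (h' i fun j => e (x j))

/-- The rank of a structure with a small base is small. -/
theorem rank_base {p : ℕ} (hp : p.Prime) {t s : ℕ} {τ : Voc} {A : Type} [Finite A]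
    {𝒜 : Str τ A} (h : HasBase t 𝒜) (hs : t * (Nat.log 2 (Nat.card A) + 1) ≤ s) :
    RankLE p s 𝒜 := by
  intro H h1 _ _
  obtain ⟨S, hS, hx⟩ := h
  have h2 : Nat.card H ≤ Nat.card (S → A) := by
    refine Nat.card_le_card_of_injective (fun (e : H) (i : S) => e.1 i.1) ?_
    intro e e' hee
    have h3 : ∀ i ∈ S, e.1 i = e'.1 i := fun i hi => congrFun hee ⟨i, hi⟩
    have h4 := hx (e.1.trans e'.1.symm) ((h1 e.1 e.2).trans' (h1 e'.1 e'.2).symm') (by
      intro i hi
      show e'.1.symm (e.1 i) = i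
      rw [h3 i hi, Equiv.symm_apply_apply])
    apply Subtype.ext
    apply Equiv.ext
    intro y
    have h5 := Equiv.congr_fun h4 y
    have h6 : e'.1.symm (e.1 y) = y := h5
    exact (e'.1.symm_apply_eq).1 h6
  have h7 : Nat.card S = S.card := by
    rw [Nat.card_eq_fintype_card, Fintype.card_coe]
  rw [Nat.card_fun, h7] at h2
  have h3 : Nat.card A ≤ 2 ^ (Nat.log 2 (Nat.card A) + 1) :=
    (Nat.lt_pow_succ_log_self (by norm_num) _).le
  have h8 : Nat.card A ^ S.card ≤ 2 ^ (t * (Nat.log 2 (Nat.card A) + 1)) := by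
    calc Nat.card A ^ S.card ≤ (2 ^ (Nat.log 2 (Nat.card A) + 1)) ^ S.card :=
        Nat.pow_le_pow_left h3 _
      _ ≤ (2 ^ (Nat.log 2 (Nat.card A) + 1)) ^ t := Nat.pow_le_pow_right (by positivity) hS
      _ = 2 ^ (t * (Nat.log 2 (Nat.card A) + 1)) := by rw [← pow_mul, mul_comm]
  calc Nat.card H ≤ Nat.card A ^ S.card := h2
    _ ≤ 2 ^ (t * (Nat.log 2 (Nat.card A) + 1)) := h8
    _ ≤ 2 ^ s := Nat.pow_le_pow_right (by norm_num) hs
    _ ≤ p ^ s := Nat.pow_le_pow_left hp.two_le _

theorem HasBase.map {t : ℕ} {τ : Voc} {A A' : Type} {𝒜 : Str τ A} {ℬ : Str τ A'}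
    (h : HasBase t 𝒜) {e : A ≃ A'} (he : IsIso 𝒜 ℬ e) : HasBase t ℬ := by
  classical
  obtain ⟨S, hS, hx⟩ := h
  refine ⟨S.image e, Finset.card_image_le.trans hS, fun g hg hfix => ?_⟩
  have h1 := hx ((e.trans g).trans e.symm) ((he.trans' hg).trans' he.symm') (by
    intro x hxS
    show e.symm (g (e x)) = x
    rw [hfix _ (Finset.mem_image_of_mem e hxS), Equiv.symm_apply_apply])
  apply Equiv.ext
  intro y
  have h2 := Equiv.congr_fun h1 (e.symm y)
  have h3 : e.symm (g (e (e.symm y))) = e.symm y := h2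
  rw [Equiv.apply_symm_apply] at h3
  exact e.symm.injective h3

/-- A quasigroup: all left and right multiplications are bijective. -/
def IsQuasigroup {Q : Type} (mul : Q → Q → Q) : Prop :=
  (∀ a, Function.Bijective (mul a)) ∧ ∀ b, Function.Bijective fun a => mul a b

section quasi

variable {Q : Type} (mul : Q → Q → Q)

/-- The set is closed under multiplication. -/
def Closed (T : Set Q) : Prop := ∀ a ∈ T, ∀ b ∈ T, mul a b ∈ T

/-- The elements generated by a set. -/
def Gen (S : Set Q) : Set Q := {x | ∀ T, S ⊆ T → Closed mul T → x ∈ T}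

theorem gen_sub (S : Set Q) : S ⊆ Gen mul S := fun _ hx _ hT _ => hT hx

theorem gen_closed (S : Set Q) : Closed mul (Gen mul S) :=
  fun a ha b hb T hT hc => hc a (ha T hT hc) b (hb T hT hc)

theorem gen_mono {S S' : Set Q} (h : S ⊆ S') : Gen mul S ⊆ Gen mul S' :=
  fun _ hx T hT hc => hx T (h.trans hT) hc

variable {mul}

theorem double [Finite Q] (hq : IsQuasigroup mul) {F : Set Q} (hF : Closed mul F) {x : Q}
    (hx : x ∉ F) {F' : Set Q} (hF' : Closed mul F') (hsub : F ⊆ F') (hx' : x ∈ F') :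
    2 * F.ncard ≤ F'.ncard := by
  have h1 : Disjoint F ((fun y => mul y x) '' F) := by
    rw [Set.disjoint_left]
    rintro z hz ⟨y, hy, rfl⟩
    -- left multiplication by `y` is a bijection of `F`
    have h2 : Set.MapsTo (mul y) F F := fun b hb => hF y hy b hb
    have h3 : mul y '' F = F := by
      refine Set.eq_of_subset_of_ncard_le ?_ ?_ (Set.toFinite _)
      · rintro _ ⟨b, hb, rfl⟩
        exact h2 hb
      · rw [Set.ncard_image_of_injective F (hq.1 y).injective]
    rw [← h3] at hz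
    obtain ⟨x', hx'1, hx'2⟩ := hz
    have h4 : x' = x := (hq.1 y).injective hx'2
    rw [h4] at hx'1
    exact hx hx'1
  have h2 : (F ∪ (fun y => mul y x) '' F) ⊆ F' := by
    rintro z (hz | ⟨y, hy, rfl⟩)
    · exact hsub hz
    · exact hF' y (hsub hy) x hx'
  have h3 := Set.ncard_le_ncard h2 (Set.toFinite _)
  rw [Set.ncard_union_eq h1 (Set.toFinite _) (Set.toFinite _),
    Set.ncard_image_of_injective F (hq.2 x).injective] at h3
  omega

theorem exists_gen [Finite Q] (hq : IsQuasigroup mul) (m : ℕ) :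
    ∃ S : Finset Q, S.card ≤ m + 1 ∧ (Gen mul (S : Set Q) = Set.univ ∨
      2 ^ m ≤ (Gen mul (S : Set Q)).ncard) := by
  classical
  induction m with
  | zero =>
    by_cases h : Nonempty Q
    · obtain ⟨x⟩ := h
      refine ⟨{x}, by simp, Or.inr ?_⟩
      rw [pow_zero, Nat.one_le_iff_ne_zero, ← Nat.pos_iff_ne_zero,
        Set.ncard_pos (Set.toFinite _)]
      exact ⟨x, gen_sub mul _ (by simp)⟩
    · refine ⟨∅, by simp, Or.inl ?_⟩
      ext x
      exact (h ⟨x⟩).elim
  | succ m ih =>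
    obtain ⟨S, hS, h | h⟩ := ih
    · exact ⟨S, by omega, Or.inl h⟩
    · by_cases hu : Gen mul (S : Set Q) = Set.univ
      · exact ⟨S, by omega, Or.inl hu⟩
      obtain ⟨x, hx⟩ := (Set.ne_univ_iff_exists_notMem _).1 hu
      refine ⟨insert x S, (Finset.card_insert_le _ _).trans (by omega), Or.inr ?_⟩
      have h1 := double hq (gen_closed mul (S : Set Q)) hx
        (gen_closed mul ((insert x S : Finset Q) : Set Q))
        (gen_mono mul (by simp)) (gen_sub mul _ (by simp))
      rw [pow_succ]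
      omega

/-- A quasigroup of order `n` is generated by `log₂ n + 1` elements. -/
theorem exists_generators [Finite Q] (hq : IsQuasigroup mul) :
    ∃ S : Finset Q, S.card ≤ Nat.log 2 (Nat.card Q) + 1 ∧ Gen mul (S : Set Q) = Set.univ := by
  classical
  by_cases h0 : Nonempty Q
  swap
  · refine ⟨∅, by simp, ?_⟩
    ext x
    exact (h0 ⟨x⟩).elim
  obtain ⟨S, hS, h | h⟩ := exists_gen hq (Nat.log 2 (Nat.card Q))
  · exact ⟨S, hS, h⟩
  · refine ⟨S, hS, ?_⟩
    by_contra hu
    obtain ⟨x, hx⟩ := (Set.ne_univ_iff_exists_notMem _).1 hu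
    have h1 := double hq (gen_closed mul (S : Set Q)) hx (F' := Set.univ)
      (fun _ _ _ _ => Set.mem_univ _) (Set.subset_univ _) (Set.mem_univ x)
    rw [Set.ncard_univ] at h1
    have h2 : Nat.card Q < 2 ^ (Nat.log 2 (Nat.card Q) + 1) :=
      Nat.lt_pow_succ_log_self (by norm_num) _
    rw [pow_succ] at h2
    omega

theorem fix_univ {S : Set Q} (hS : Gen mul S = Set.univ) {e : Q → Q}
    (he : ∀ a b, e (mul a b) = mul (e a) (e b)) (hfix : ∀ x ∈ S, e x = x) (x : Q) : e x = x := by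
  have h1 : x ∈ Gen mul S := by
    rw [hS]
    exact Set.mem_univ x
  exact h1 {y | e y = y} hfix fun a ha b hb => by
    show e (mul a b) = mul a b
    rw [he, show e a = a from ha, show e b = b from hb]

end quasi

/-- The vocabulary of pairs of binary operations: a ternary and a unary relation. -/
def pairVoc : Voc := ⟨Bool, fun b => if b then 3 else 1⟩

/-- The pair of the tables `mul` and `mul'`, as a structure on the disjoint union: the ternary
relation holds for `a, b, ab` (in the same part), the unary one for the elements of the first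
part. -/
def pairOp {Q Q' : Type} (mul : Q → Q → Q) (mul' : Q' → Q' → Q') : Str pairVoc (Q ⊕ Q')
  | true => fun (x : Fin 3 → Q ⊕ Q') =>
      (∃ a b, x 0 = .inl a ∧ x 1 = .inl b ∧ x 2 = .inl (mul a b)) ∨
      ∃ a b, x 0 = .inr a ∧ x 1 = .inr b ∧ x 2 = .inr (mul' a b)
  | false => fun (x : Fin 1 → Q ⊕ Q') => ∃ a, x 0 = .inl a

/-- The two operations are isomorphic. -/
def OpIso {Q Q' : Type} (mul : Q → Q → Q) (mul' : Q' → Q' → Q') : Prop :=
  ∃ e : Q ≃ Q', ∀ a b, e (mul a b) = mul' (e a) (e b)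

section pair

variable {Q Q' R R' : Type} {mul : Q → Q → Q} {mul' : Q' → Q' → Q'} {mulR : R → R → R}
  {mulR' : R' → R' → R'} {e : Q ⊕ Q' ≃ R ⊕ R'}

theorem pair_left (h : IsIso (pairOp mul mul') (pairOp mulR mulR') e) (a : Q) :
    ∃ r, e (.inl a) = .inl r := by
  have h1 : (pairOp mul mul') false (fun _ => Sum.inl a) := ⟨a, rfl⟩
  exact (h false fun _ => Sum.inl a).1 h1

theorem pair_right (h : IsIso (pairOp mul mul') (pairOp mulR mulR') e) (a : Q') :
    ∃ r, e (.inr a) = .inr r := by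
  rcases he : e (.inr a) with r | r
  · exfalso
    have h1 : (pairOp mulR mulR') false (fun _ => e (Sum.inr a)) := ⟨r, he⟩
    obtain ⟨b, hb⟩ := (h false fun _ => Sum.inr a).2 h1
    exact absurd hb (by simp)
  · exact ⟨r, rfl⟩

theorem pair_mul (h : IsIso (pairOp mul mul') (pairOp mulR mulR') e) {a b : Q} {r s : R}
    (ha : e (.inl a) = .inl r) (hb : e (.inl b) = .inl s) :
    e (.inl (mul a b)) = .inl (mulR r s) := by
  have h1 : (pairOp mul mul') true (![.inl a, .inl b, .inl (mul a b)] : Fin 3 → Q ⊕ Q') :=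
    Or.inl ⟨a, b, rfl, rfl, rfl⟩
  have h2 := (h true (![.inl a, .inl b, .inl (mul a b)] : Fin 3 → Q ⊕ Q')).1 h1
  rcases h2 with ⟨r', s', h3, h4, h5⟩ | ⟨r', s', h3, h4, h5⟩
  · have h3' : e (.inl a) = .inl r' := h3
    have h4' : e (.inl b) = .inl s' := h4
    have h5' : e (.inl (mul a b)) = .inl (mulR r' s') := h5
    rw [ha] at h3'
    rw [hb] at h4'
    rw [h5', Sum.inl.inj h3', Sum.inl.inj h4']
  · have h3' : e (.inl a) = .inr r' := h3
    rw [ha] at h3'
    exact absurd h3' (by simp)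

theorem pair_mul' (h : IsIso (pairOp mul mul') (pairOp mulR mulR') e) {a b : Q'} {r s : R'}
    (ha : e (.inr a) = .inr r) (hb : e (.inr b) = .inr s) :
    e (.inr (mul' a b)) = .inr (mulR' r s) := by
  have h1 : (pairOp mul mul') true (![.inr a, .inr b, .inr (mul' a b)] : Fin 3 → Q ⊕ Q') :=
    Or.inr ⟨a, b, rfl, rfl, rfl⟩
  have h2 := (h true (![.inr a, .inr b, .inr (mul' a b)] : Fin 3 → Q ⊕ Q')).1 h1
  rcases h2 with ⟨r', s', h3, h4, h5⟩ | ⟨r', s', h3, h4, h5⟩
  · have h3' : e (.inr a) = .inl r' := h3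
    rw [ha] at h3'
    exact absurd h3' (by simp)
  · have h3' : e (.inr a) = .inr r' := h3
    have h4' : e (.inr b) = .inr s' := h4
    have h5' : e (.inr (mul' a b)) = .inr (mulR' r' s') := h5
    rw [ha] at h3'
    rw [hb] at h4'
    rw [h5', Sum.inr.inj h3', Sum.inr.inj h4']

theorem pair_equiv (h : IsIso (pairOp mul mul') (pairOp mulR mulR') e) :
    OpIso mul mulR ∧ OpIso mul' mulR' := by
  have hs := h.symm'
  constructor
  · choose f hf using pair_left h
    choose g hg using pair_left hs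
    refine ⟨⟨f, g, ?_, ?_⟩, ?_⟩
    · intro a
      have h1 := hg (f a)
      rw [← hf, Equiv.symm_apply_apply] at h1
      exact (Sum.inl.inj h1).symm
    · intro a
      have h1 := hf (g a)
      rw [← hg, Equiv.apply_symm_apply] at h1
      exact (Sum.inl.inj h1).symm
    · intro a b
      have h1 := pair_mul h (hf a) (hf b)
      rw [hf] at h1
      exact Sum.inl.inj h1
  · choose f hf using pair_right h
    choose g hg using pair_right hs
    refine ⟨⟨f, g, ?_, ?_⟩, ?_⟩
    · intro a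
      have h1 := hg (f a)
      rw [← hf, Equiv.symm_apply_apply] at h1
      exact (Sum.inr.inj h1).symm
    · intro a
      have h1 := hf (g a)
      rw [← hg, Equiv.apply_symm_apply] at h1
      exact (Sum.inr.inj h1).symm
    · intro a b
      have h1 := pair_mul' h (hf a) (hf b)
      rw [hf] at h1
      exact Sum.inr.inj h1

end pair

/-- The structure of two quasigroups has a small base. -/
theorem base_pair {Q Q' : Type} [Finite Q] [Finite Q'] {mul : Q → Q → Q} {mul' : Q' → Q' → Q'}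
    (h : IsQuasigroup mul) (h' : IsQuasigroup mul') :
    HasBase ((Nat.log 2 (Nat.card Q) + 1) + (Nat.log 2 (Nat.card Q') + 1))
      (pairOp mul mul') := by
  classical
  obtain ⟨S, hS1, hS2⟩ := exists_generators h
  obtain ⟨S', hS1', hS2'⟩ := exists_generators h'
  refine ⟨S.image Sum.inl ∪ S'.image Sum.inr, ?_, fun e he hfix => ?_⟩
  · refine (Finset.card_union_le _ _).trans (Nat.add_le_add ?_ ?_)
    · exact Finset.card_image_le.trans hS1
    · exact Finset.card_image_le.trans hS1'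
  · choose f hf using pair_left he
    choose g hg using pair_right he
    apply Equiv.ext
    rintro (x | x)
    · show e (.inl x) = .inl x
      rw [hf]
      congr 1
      refine fix_univ hS2 (e := f) ?_ ?_ x
      · intro a b
        have h1 := pair_mul he (hf a) (hf b)
        rw [hf] at h1
        exact Sum.inl.inj h1
      · intro a ha
        have h1 := hfix (.inl a) (Finset.mem_union_left _ (Finset.mem_image_of_mem _ ha))
        rw [hf] at h1
        exact Sum.inl.inj h1
    · show e (.inr x) = .inr x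
      rw [hg]
      congr 1
      refine fix_univ hS2' (e := g) ?_ ?_ x
      · intro a b
        have h1 := pair_mul' he (hg a) (hg b)
        rw [hg] at h1
        exact Sum.inr.inj h1
      · intro a ha
        have h1 := hfix (.inr a) (Finset.mem_union_right _ (Finset.mem_image_of_mem _ ha))
        rw [hg] at h1
        exact Sum.inr.inj h1

/-- Polylogarithmic growth. -/
def polylog (a : ℕ) (n : ℕ) : ℕ := (Nat.log 2 n + 2) ^ a

/-- **The isomorphism problem for quasigroups** (in particular for groups) is one of the oracles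
of polylogarithmic rank. -/
theorem exists_quasigroup_class {p : ℕ} (hp : p.Prime) :
    ∃ C : Cls p (polylog 3) pairVoc, ∀ (Q Q' : Type) [Finite Q] [Finite Q']
      (mul : Q → Q → Q) (mul' : Q' → Q' → Q'), IsQuasigroup mul → IsQuasigroup mul' →
      (C.Mem (Q ⊕ Q') (pairOp mul mul') ↔ OpIso mul mul') := by
  refine ⟨⟨fun A 𝒜 => ∃ (Q Q' : Type) (_ : Finite Q) (_ : Finite Q') (mul : Q → Q → Q)
      (mul' : Q' → Q' → Q'), IsQuasigroup mul ∧ IsQuasigroup mul' ∧ OpIso mul mul' ∧
        ∃ e : Q ⊕ Q' ≃ A, IsIso (pairOp mul mul') 𝒜 e, ?_, ?_⟩, ?_⟩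
  · rintro A B 𝒜 ℬ e he ⟨Q, Q', i, i', mul, mul', h1, h2, h3, g, hg⟩
    exact ⟨Q, Q', i, i', mul, mul', h1, h2, h3, g.trans e, hg.trans' he⟩
  · rintro A _ 𝒜 ⟨Q, Q', i, i', mul, mul', h1, h2, h3, g, hg⟩
    refine rank_base hp ((base_pair h1 h2).map hg) ?_
    have e1 : Nat.card A = Nat.card Q + Nat.card Q' := by
      rw [← Nat.card_sum]
      exact (Nat.card_congr g).symm
    have h4 : Nat.log 2 (Nat.card Q) ≤ Nat.log 2 (Nat.card A) :=
      Nat.log_mono_right (by omega)
    have h5 : Nat.log 2 (Nat.card Q') ≤ Nat.log 2 (Nat.card A) :=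
      Nat.log_mono_right (by omega)
    unfold polylog
    generalize Nat.log 2 (Nat.card A) = L at h4 h5
    generalize Nat.log 2 (Nat.card Q) = l at h4
    generalize Nat.log 2 (Nat.card Q') = l' at h5
    calc (l + 1 + (l' + 1)) * (L + 1) ≤ (2 * (L + 1)) * (L + 1) :=
        Nat.mul_le_mul_right _ (by omega)
      _ ≤ (L + 2) ^ 3 := by
        ring_nf
        nlinarith [Nat.zero_le L, Nat.zero_le (L ^ 2), Nat.zero_le (L ^ 3)]
  · intro Q Q' _ _ mul mul' hq hq'
    constructor
    · rintro ⟨R, R', i, i', mulR, mulR', h1, h2, ⟨e, he⟩, g, hg⟩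
      obtain ⟨⟨a, ha⟩, ⟨b, hb⟩⟩ := pair_equiv hg
      refine ⟨(a.symm.trans e).trans b, fun x y => ?_⟩
      have h3 : a.symm (mul x y) = mulR (a.symm x) (a.symm y) := by
        rw [Equiv.symm_apply_eq, ha, Equiv.apply_symm_apply, Equiv.apply_symm_apply]
      show b (e (a.symm (mul x y))) = mul' (b (e (a.symm x))) (b (e (a.symm y)))
      rw [h3, he, hb]
    · intro h
      exact ⟨Q, Q', inferInstance, inferInstance, mul, mul', hq, hq', h, Equiv.refl _,
        fun _ _ => Iff.rfl⟩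

/-- Powers of polylogarithmic functions grow more slowly than the identity. -/
theorem exists_large (k a C : ℕ) : ∃ u : ℕ, k * ((k * (C + 2 * u) + 2) ^ a + 1) ≤ 2 ^ u := by
  obtain ⟨D, hD⟩ : ∃ D, D = k * (C + 2) + 2 := ⟨_, rfl⟩
  have hD1 : 1 ≤ D := by omega
  have h1 := tendsto_pow_const_div_const_pow_of_one_lt a (r := (2 : ℝ)) (by norm_num)
  have hpos : (0 : ℝ) < 1 / (2 * k * D ^ a + 1) := by positivity
  obtain ⟨u, hu, hu1⟩ := ((h1.eventually (gt_mem_nhds hpos)).and
    (Filter.eventually_ge_atTop 1)).exists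
  refine ⟨u, ?_⟩
  have h2 : (2 * k * D ^ a + 1 : ℝ) * (u : ℝ) ^ a < 2 ^ u := by
    rw [div_lt_div_iff₀ (by positivity) (by positivity)] at hu
    linarith
  have h3 : (2 * k * D ^ a + 1) * u ^ a < 2 ^ u := by exact_mod_cast h2
  have h4 : k * (C + 2 * u) + 2 ≤ D * u := by
    rw [hD]
    have h5 : C ≤ C * u := Nat.le_mul_of_pos_right _ hu1
    have h6 : k * (C + 2 * u) ≤ k * (C * u + 2 * u) := Nat.mul_le_mul_left _ (by omega)
    calc k * (C + 2 * u) + 2 ≤ k * (C * u + 2 * u) + 2 * u := by omega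
      _ = _ := by ring
  have h5 : (k * (C + 2 * u) + 2) ^ a ≤ D ^ a * u ^ a := by
    rw [← mul_pow]
    exact Nat.pow_le_pow_left h4 a
  have h6 : 1 ≤ D ^ a * u ^ a := Nat.mul_pos (Nat.pow_pos hD1) (Nat.pow_pos hu1)
  calc k * ((k * (C + 2 * u) + 2) ^ a + 1) ≤ k * (D ^ a * u ^ a + D ^ a * u ^ a) :=
      Nat.mul_le_mul_left _ (by omega)
    _ = 2 * k * D ^ a * u ^ a := by ring
    _ ≤ (2 * k * D ^ a + 1) * u ^ a := Nat.mul_le_mul_right _ (by omega)
    _ ≤ _ := h3.le

theorem polylog_mono (a : ℕ) {m n : ℕ} (h : m ≤ n) : polylog a m ≤ polylog a n :=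
  Nat.pow_le_pow_left (Nat.add_le_add_right (Nat.log_mono_right h) 2) a

/-- The condition of the main theorem for polylogarithmic functions. -/
theorem exists_polylog (c a k : ℕ) : ∃ N : ℕ,
    ∀ j ≤ (c * (N * (Nat.log 2 N + 1))) ^ k, k * (polylog a j + 1) ≤ N := by
  obtain ⟨u, hu⟩ := exists_large k a (Nat.log 2 c + 1)
  refine ⟨2 ^ u, fun j hj => ?_⟩
  refine le_trans (Nat.mul_le_mul_left _ (Nat.add_le_add_right ?_ 1)) hu
  have h1 : Nat.log 2 (2 ^ u) = u := Nat.log_pow (by norm_num) u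
  rw [h1] at hj
  have h2 : u + 1 ≤ 2 ^ u := Nat.lt_two_pow_self
  have h3 : c ≤ 2 ^ (Nat.log 2 c + 1) := (Nat.lt_pow_succ_log_self (by norm_num) _).le
  have h4 : (c * (2 ^ u * (u + 1))) ^ k ≤ 2 ^ (k * (Nat.log 2 c + 1 + 2 * u)) := by
    calc (c * (2 ^ u * (u + 1))) ^ k ≤ (2 ^ (Nat.log 2 c + 1) * (2 ^ u * 2 ^ u)) ^ k :=
        Nat.pow_le_pow_left (Nat.mul_le_mul h3 (Nat.mul_le_mul_left _ h2)) k
      _ = _ := by
        rw [← pow_add, ← pow_add, ← pow_mul]
        congr 1
        ring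
  refine Nat.pow_le_pow_left (Nat.add_le_add_right ?_ 2) a
  calc Nat.log 2 j ≤ Nat.log 2 (2 ^ (k * (Nat.log 2 c + 1 + 2 * u))) :=
      Nat.log_mono_right (hj.trans h4)
    _ = _ := Nat.log_pow (by norm_num) _

end Pool.Agent.K4H86.OR
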