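import Pool.Agent.Y598.CG.Main

/-!
# Cai-Fürer-Immerman graphs for the group of order `p`
-/

set_option autoImplicit false
set_option linter.unusedSectionVars false

namespace Pool.Agent.K4H86.OR

open Finset Pool.Agent.Y598.CG Pool.Agent.Y598.VT

variable {p : ℕ} [Fact p.Prime] {r : ℕ} [NeZero r]

/-- The vertices. -/
abbrev Vp (p r : ℕ) : Type := Lp r × (ZMod p × ZMod p)

/-- The values of a vertex at the three ports of its node; their sum is the twist of the node. -/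
def vl (b : Lp r → ZMod p) (x : Vp p r) (j : Fin 3) : ZMod p :=
  if j = 0 then b x.1 - x.2.1 - x.2.2 else if j = 1 then x.2.1 else x.2.2

theorem vl_zero (b : Lp r → ZMod p) (x : Vp p r) : vl b x 0 = b x.1 - x.2.1 - x.2.2 := rfl
theorem vl_one (b : Lp r → ZMod p) (x : Vp p r) : vl b x 1 = x.2.1 := rfl
theorem vl_two (b : Lp r → ZMod p) (x : Vp p r) : vl b x 2 = x.2.2 := rfl

theorem vl_sum (b : Lp r → ZMod p) (x : Vp p r) : ∑ j, vl b x j = b x.1 := by
  rw [Fin.sum_univ_three, vl_zero, vl_one, vl_two]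
  ring

theorem eq_of_vl {b : Lp r → ZMod p} {x y : Vp p r} (h1 : x.1 = y.1) {j l : Fin 3}
    (hjl : j ≠ l) (hj : vl b x j = vl b y j) (hl : vl b x l = vl b y l) : x = y := by
  have key : vl b x 1 = vl b y 1 ∧ vl b x 2 = vl b y 2 := by
    have h0 : vl b x 0 + vl b x 1 + vl b x 2 = vl b y 0 + vl b y 1 + vl b y 2 := by
      have e1 := vl_sum b x
      have e2 := vl_sum b y
      rw [Fin.sum_univ_three] at e1 e2
      rw [e1, e2, h1]
    rcases fin3 j with rfl | rfl | rfl <;> rcases fin3 l with rfl | rfl | rfl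
    · exact absurd rfl hjl
    · exact ⟨hl, by linear_combination h0 - hj - hl⟩
    · exact ⟨by linear_combination h0 - hj - hl, hl⟩
    · exact ⟨hj, by linear_combination h0 - hj - hl⟩
    · exact absurd rfl hjl
    · exact ⟨hj, hl⟩
    · exact ⟨by linear_combination h0 - hj - hl, hj⟩
    · exact ⟨hl, hj⟩
    · exact absurd rfl hjl
  exact Prod.ext h1 (Prod.ext key.1 key.2)

theorem exists_vl (b : Lp r → ZMod p) (v : Lp r) (j : Fin 3) (c : ZMod p) :
    ∃ x y : Vp p r, x ≠ y ∧ x.1 = v ∧ y.1 = v ∧ vl b x j = c ∧ vl b y j = c := by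
  have h01 : (0 : ZMod p) ≠ 1 := zero_ne_one
  rcases fin3 j with rfl | rfl | rfl
  · refine ⟨(v, (0, b v - c)), (v, (1, b v - c - 1)), ?_, rfl, rfl, ?_, ?_⟩
    · intro h
      exact h01 (congrArg (fun q : Vp p r => q.2.1) h)
    · show b v - 0 - (b v - c) = c
      ring
    · show b v - 1 - (b v - c - 1) = c
      ring
  · refine ⟨(v, (c, 0)), (v, (c, 1)), ?_, rfl, rfl, rfl, rfl⟩
    intro h
    exact h01 (congrArg (fun q : Vp p r => q.2.2) h)
  · refine ⟨(v, (0, c)), (v, (1, c)), ?_, rfl, rfl, rfl, rfl⟩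
    intro h
    exact h01 (congrArg (fun q : Vp p r => q.2.1) h)

/-- The Cai-Fürer-Immerman graph with twists `b`. -/
def gp (b : Lp r → ZMod p) : SimpleGraph (Vp p r) where
  Adj x y := ∃ j, nb x.1 j = y.1 ∧ vl b x j + vl b y j = 0
  symm := ⟨by
    rintro x y ⟨j, h1, h2⟩
    refine ⟨j, ?_, ?_⟩
    · rw [← h1, nb_nb]
    · rw [add_comm]
      exact h2⟩
  loopless := ⟨by
    rintro x ⟨j, h1, _⟩
    exact nb_ne _ _ h1⟩

theorem gp_adj {b : Lp r → ZMod p} {x y : Vp p r} :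
    (gp b).Adj x y ↔ ∃ j, nb x.1 j = y.1 ∧ vl b x j + vl b y j = 0 := Iff.rfl

/-- The vertices have two common neighbours. -/
def R2 (b : Lp r → ZMod p) (x y : Vp p r) : Prop :=
  ∃ z z', z ≠ z' ∧ (gp b).Adj x z ∧ (gp b).Adj x z' ∧ (gp b).Adj y z ∧ (gp b).Adj y z'

theorem R2_of {b : Lp r → ZMod p} {x y : Vp p r} (h : x.1 = y.1) {j : Fin 3}
    (hj : vl b x j = vl b y j) : R2 b x y := by
  obtain ⟨z, z', hne, h1, h2, h3, h4⟩ := exists_vl b (nb x.1 j) j (-vl b x j)
  refine ⟨z, z', hne, ⟨j, h1.symm, ?_⟩, ⟨j, h2.symm, ?_⟩, ⟨j, ?_, ?_⟩, ⟨j, ?_, ?_⟩⟩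
  · rw [h3, add_neg_cancel]
  · rw [h4, add_neg_cancel]
  · rw [← h, h1]
  · rw [← hj, h3, add_neg_cancel]
  · rw [← h, h2]
  · rw [← hj, h4, add_neg_cancel]

theorem R2_fibre (hr : 3 ≤ r) {b : Lp r → ZMod p} {x y : Vp p r} (h : R2 b x y) :
    x.1 = y.1 := by
  obtain ⟨z, z', hne, ⟨j, a1, a2⟩, ⟨j', b1, b2⟩, ⟨l, c1, c2⟩, ⟨l', d1, d2⟩⟩ := h
  by_contra hcon
  have e1 := (prt hr).sq x.1 y.1 j j' l l' hcon (a1.trans c1.symm) (b1.trans d1.symm)
  have e2 := (prt hr).sq y.1 x.1 l l' j j' (Ne.symm hcon) (c1.trans a1.symm) (d1.trans b1.symm)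
  subst e1 e2
  apply hne
  have hz : z.1 = z'.1 := a1.symm.trans b1
  refine eq_of_vl (b := b) hz (j := j) (l := l) ?_ ?_ ?_
  · intro h
    apply hcon
    rw [← nb_nb x.1 j, a1, ← nb_nb y.1 l, c1, h]
  · linear_combination a2 - b2
  · linear_combination c2 - d2

/-- The fibres are determined by the graph. -/
theorem fibre_iff (hr : 3 ≤ r) {b : Lp r → ZMod p} {x y : Vp p r} :
    x.1 = y.1 ↔ ∃ w, R2 b x w ∧ R2 b w y := by
  constructor
  · intro h
    refine ⟨(x.1, (x.2.1, y.2.2)), R2_of (j := 1) rfl rfl, R2_of (j := 2) h rfl⟩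
  · rintro ⟨w, h1, h2⟩
    exact (R2_fibre hr h1).trans (R2_fibre hr h2)

theorem R2_map {b b' : Lp r → ZMod p} (φ : gp b ≃g gp b') {x y : Vp p r} (h : R2 b x y) :
    R2 b' (φ x) (φ y) := by
  obtain ⟨z, z', h1, h2, h3, h4, h5⟩ := h
  exact ⟨φ z, φ z', fun h => h1 (φ.injective h), φ.map_adj_iff.2 h2, φ.map_adj_iff.2 h3,
    φ.map_adj_iff.2 h4, φ.map_adj_iff.2 h5⟩

theorem iso_fibre (hr : 3 ≤ r) {b b' : Lp r → ZMod p} (φ : gp b ≃g gp b') (x y : Vp p r) :
    (φ x).1 = (φ y).1 ↔ x.1 = y.1 := by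
  rw [fibre_iff hr (b := b) (x := x) (y := y), fibre_iff hr (b := b') (x := φ x) (y := φ y)]
  constructor
  · rintro ⟨w, h1, h2⟩
    have h3 := R2_map φ.symm h1
    have h4 := R2_map φ.symm h2
    rw [RelIso.symm_apply_apply] at h3 h4
    exact ⟨_, h3, h4⟩
  · rintro ⟨w, h1, h2⟩
    exact ⟨φ w, R2_map φ h1, R2_map φ h2⟩

/-- **The graph without twists is not isomorphic to a graph whose sum of twists is not zero.** -/
theorem no_iso (hr : 3 ≤ r) (b : Lp r → ZMod p) (hb : ∑ v, b v ≠ 0) :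
    IsEmpty (gp (0 : Lp r → ZMod p) ≃g gp b) := by
  classical
  refine ⟨fun φ => hb ?_⟩
  let π : Lp r → Lp r := fun v => (φ (v, 0)).1
  have hπinj : Function.Injective π := by
    intro v w h
    exact (iso_fibre hr φ (v, 0) (w, 0)).1 h
  have hπbij : Function.Bijective π := Finite.injective_iff_bijective.1 hπinj
  have hp : ∀ (v : Lp r) (j : Fin 3), ∃ q, nb (π v) q = π (nb v j) ∧
      vl b (φ (v, 0)) q + vl b (φ (nb v j, 0)) q = 0 := by
    intro v j
    have h4 : (gp (0 : Lp r → ZMod p)).Adj (v, 0) (nb v j, 0) := by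
      refine ⟨j, rfl, ?_⟩
      have h5 : ∀ w : Lp r, vl (0 : Lp r → ZMod p) (w, 0) j = 0 := by
        intro w
        rcases fin3 j with rfl | rfl | rfl
        · show (0 : ZMod p) - 0 - 0 = 0
          rw [sub_zero, sub_zero]
        · rfl
        · rfl
      rw [h5, h5, add_zero]
    exact φ.map_adj_iff.2 h4
  choose q hq1 hq2 using hp
  have hqinj : ∀ v, Function.Bijective (q v) := by
    intro v
    refine Finite.injective_iff_bijective.1 fun j l h => ?_
    have h1 := hq1 v j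
    rw [h, hq1 v l] at h1
    exact ((prt hr).nb_inj _ _ _ (hπinj h1)).symm
  have hqrv : ∀ v j, q (nb v j) j = q v j := by
    intro v j
    refine (prt hr).nb_inj (π (nb v j)) _ _ ?_
    show nb (π (nb v j)) (q (nb v j) j) = nb (π (nb v j)) (q v j)
    rw [hq1, nb_nb, ← hq1, nb_nb]
  let T : Lp r × Fin 3 → ZMod p := fun h => vl b (φ (h.1, 0)) (q h.1 h.2)
  have hsumT : ∀ v, ∑ j, T (v, j) = b (π v) := by
    intro v
    have h1 := Function.Bijective.sum_comp (hqinj v) fun j => vl b (φ (v, 0)) j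
    exact h1.trans (vl_sum b _)
  have hall : ∑ h : Lp r × Fin 3, T h = 0 := by
    refine Finset.sum_involution (fun h _ => (nb h.1 h.2, h.2)) ?_ ?_ ?_ ?_
    · rintro ⟨v, j⟩ _
      show vl b (φ (v, 0)) (q v j) + vl b (φ (nb v j, 0)) (q (nb v j) j) = 0
      rw [hqrv]
      exact hq2 v j
    · rintro ⟨v, j⟩ _ _ h
      exact nb_ne v j (congrArg Prod.fst h)
    · intro h _
      exact Finset.mem_univ _
    · rintro ⟨v, j⟩ _
      show (nb (nb v j) j, j) = (v, j)
      rw [nb_nb]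
  rw [Fintype.sum_prod_type] at hall
  simp only [hsumT] at hall
  rwa [Function.Bijective.sum_comp hπbij (fun v => b v)] at hall

/-- Every vertex has at most `3 p` neighbours. -/
theorem ncard_neighbours (b : Lp r → ZMod p) (x : Vp p r) :
    ((gp b).neighborSet x).ncard ≤ 3 * p := by
  classical
  have : NeZero p := ⟨(Fact.out : p.Prime).ne_zero⟩
  have h1 : (gp b).neighborSet x ⊆ ((Finset.univ.image (fun q : Fin 3 × ZMod p =>
      ((nb x.1 q.1, (if q.1 = 0 then (q.2, b (nb x.1 0) + vl b x 0 - q.2) else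
        if q.1 = 1 then (- vl b x 1, q.2) else (q.2, - vl b x 2))) : Vp p r)) :
          Finset (Vp p r)) : Set (Vp p r)) := by
    rintro y ⟨j, h1, h2⟩
    rw [Finset.coe_image]
    rcases fin3 j with rfl | rfl | rfl
    · refine ⟨(0, y.2.1), Finset.mem_coe.2 (Finset.mem_univ _), ?_⟩
      refine Prod.ext h1 (Prod.ext rfl ?_)
      show b (nb x.1 0) + vl b x 0 - y.2.1 = y.2.2
      rw [vl_zero b y] at h2
      rw [h1]
      linear_combination h2
    · refine ⟨(1, y.2.2), Finset.mem_coe.2 (Finset.mem_univ _), ?_⟩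
      refine Prod.ext h1 (Prod.ext ?_ rfl)
      show - vl b x 1 = y.2.1
      rw [vl_one b y] at h2
      linear_combination -h2
    · refine ⟨(2, y.2.1), Finset.mem_coe.2 (Finset.mem_univ _), ?_⟩
      refine Prod.ext h1 (Prod.ext rfl ?_)
      show - vl b x 2 = y.2.2
      rw [vl_two b y] at h2
      linear_combination -h2
  refine (Set.ncard_le_ncard h1 (Finset.finite_toSet _)).trans ?_
  rw [Set.ncard_coe_finset]
  refine Finset.card_image_le.trans ?_
  rw [Finset.card_univ, Fintype.card_prod, Fintype.card_fin, ZMod.card]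

end Pool.Agent.K4H86.OR
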