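import Pool.Agent.K4H86.OR.Glue2

/-!
# Few symmetries: pinning few elements kills the global automorphisms
-/

set_option autoImplicit false
set_option linter.unusedSectionVars false

namespace Pool.Agent.K4H86.OR

open Pool.Agent.Y598.IM Relation

variable {X L V B : Type} [AddCommGroup X] [SemilatticeSup L] [OrderBot L] {F : Fam X L V B}

variable {T : Type} {𝒯 : TAct F T} {τ : Voc} {b b' : B} {W₁ : L}
  {δ δ' : T → Prop} {ε ε' : T → T → Prop} {ρ ρ' : ∀ i : τ.Sym, (Fin (τ.ar i) → T) → Prop}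

/-- The element `α` is a global automorphism which fixes everything at the level `W`. -/
def Gl (F : Fam X L V B) (W : L) (α : X) : Prop := (∀ W', α ∈ F.D W') ∧ α ∈ F.N W

theorem Gl.neg {W : L} {α : X} (h : Gl F W α) : Gl F W (-α) :=
  ⟨fun W' => neg_mem (h.1 W'), neg_mem h.2⟩

theorem Gl.add {W : L} {α β : X} (h : Gl F W α) (h' : Gl F W β) : Gl F W (α + β) :=
  ⟨fun W' => add_mem (h.1 W') (h'.1 W'), add_mem h.2 h'.2⟩

theorem Gl.anti {W W' : L} (hW : W ≤ W') {α : X} (h : Gl F W' α) : Gl F W α :=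
  ⟨h.1, F.N_anti _ _ hW h.2⟩

/-- The permutations which come from the global automorphisms fixing everything at the level
`W`. -/
def hs (𝒯 : TAct F T) (δ : T → Prop) (ε : T → T → Prop) (W : L) :
    Subgroup (Equiv.Perm (OutT δ ε)) where
  carrier := {e | ∃ α, Gl F W α ∧ (∀ t, δ t ↔ δ (𝒯.A α t)) ∧
    ∀ t (ht : δ t) (ht' : δ (𝒯.A α t)), e (cls δ ε t ht) = cls δ ε (𝒯.A α t) ht'}
  mul_mem' := by
    rintro e e' ⟨α, hα, hδ, he⟩ ⟨β, hβ, hδ', he'⟩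
    refine ⟨α + β, hα.add hβ, fun t => ?_, fun t ht ht' => ?_⟩
    · rw [𝒯.add, ← hδ, ← hδ']
    · rw [Equiv.Perm.mul_apply, he' t ht ((hδ' t).1 ht), he _ _ ((hδ _).1 ((hδ' t).1 ht))]
      exact cls_congr _ _ (𝒯.add α β t).symm
  one_mem' := by
    refine ⟨0, ⟨fun W' => zero_mem _, zero_mem _⟩, fun t => ?_, fun t ht ht' => ?_⟩
    · rw [𝒯.zero]
    · exact cls_congr _ _ (𝒯.zero t).symm
  inv_mem' := by
    rintro e ⟨α, hα, hδ, he⟩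
    refine ⟨-α, hα.neg, fun t => ?_, fun t ht ht' => ?_⟩
    · rw [hδ (𝒯.A (-α) t), 𝒯.act_neg]
    · rw [Equiv.Perm.inv_eq_iff_eq, he _ ht' (by rwa [𝒯.act_neg])]
      exact cls_congr _ _ (𝒯.act_neg α t).symm

theorem hs_anti {W W' : L} (hW : W ≤ W') : hs 𝒯 δ ε W' ≤ hs 𝒯 δ ε W := by
  rintro e ⟨α, hα, hδ, he⟩
  exact ⟨α, hα.anti hW, hδ, he⟩

section

variable (h : Inv 𝒯 b b W₁ 0 δ δ ε ε ρ ρ)

include h

theorem Inv.gl_δ {W : L} (hW : W₁ ≤ W) {α : X} (hα : Gl F W α) (t : T) :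
    δ t ↔ δ (𝒯.A α t) :=
  h.hδ α t (by
    rw [sub_zero]
    exact F.N_anti _ _ hW hα.2) ((F.sol_D b _ _).2 (hα.1 _))

theorem Inv.gl_ε {W : L} (hW : W₁ ≤ W) {α : X} (hα : Gl F W α) (t u : T) :
    ε t u ↔ ε (𝒯.A α t) (𝒯.A α u) :=
  h.hε α t u (by
    rw [sub_zero]
    exact F.N_anti _ _ hW hα.2) ((F.sol_D b _ _).2 (hα.1 _))

theorem Inv.gl_ρ {W : L} (hW : W₁ ≤ W) {α : X} (hα : Gl F W α) (i : τ.Sym)
    (a : Fin (τ.ar i) → T) : ρ i a ↔ ρ i fun j => 𝒯.A α (a j) :=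
  h.hρ α i a (by
    rw [sub_zero]
    exact F.N_anti _ _ hW hα.2) ((F.sol_D b _ _).2 (hα.1 _))

/-- Global automorphisms act on the structure. -/
theorem Inv.exists_perm {W : L} (hW : W₁ ≤ W) {α : X} (hα : Gl F W α) :
    ∃ e ∈ hs 𝒯 δ ε W, ∀ t (ht : δ t), e (cls δ ε t ht) =
      cls δ ε (𝒯.A α t) ((h.gl_δ hW hα t).1 ht) := by
  let g : ∀ β, Gl F W β → OutT δ ε → OutT δ ε := fun β hβ =>
    Quot.map (fun x => ⟨𝒯.A β x.1, (h.gl_δ hW hβ x.1).1 x.2⟩)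
      (fun x y hxy => (h.gl_ε hW hβ x.1 y.1).1 hxy)
  have h1 : ∀ q, g (-α) hα.neg (g α hα q) = q := by
    intro q
    obtain ⟨⟨t, ht⟩, rfl⟩ := Quot.exists_rep q
    exact cls_congr _ _ (𝒯.neg_act α t)
  have h2 : ∀ q, g α hα (g (-α) hα.neg q) = q := by
    intro q
    obtain ⟨⟨t, ht⟩, rfl⟩ := Quot.exists_rep q
    exact cls_congr _ _ (𝒯.act_neg α t)
  exact ⟨⟨g α hα, g (-α) hα.neg, h1, h2⟩, ⟨α, hα, h.gl_δ hW hα, fun t ht ht' => rfl⟩,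
    fun t ht => rfl⟩

theorem Inv.hs_iso {W : L} (hW : W₁ ≤ W) :
    ∀ e ∈ hs 𝒯 δ ε W, IsIso (outStr δ ε ρ) (outStr δ ε ρ) e := by
  have key : ∀ e ∈ hs 𝒯 δ ε W, ∀ i q, outStr δ ε ρ i q → outStr δ ε ρ i fun j => e (q j) := by
    rintro e ⟨α, hα, hδ, he⟩ i q ⟨a, ha, hρ⟩
    refine ⟨fun j => ⟨𝒯.A α (a j).1, (hδ _).1 (a j).2⟩, fun j => ?_,
      (h.gl_ρ hW hα i _).1 hρ⟩
    refine Eq.trans (he (a j).1 (a j).2 ((hδ _).1 (a j).2)).symm ?_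
    exact congrArg e (ha j)
  intro e he i q
  refine ⟨key e he i q, fun h1 => ?_⟩
  have h2 := key e⁻¹ (inv_mem he) i _ h1
  have h3 : (fun j => (e⁻¹ : Equiv.Perm (OutT δ ε)) (e (q j))) = q :=
    funext fun j => e.symm_apply_apply _
  rwa [h3] at h2

/-- **Pinning few elements kills the global automorphisms.** -/
theorem Inv.exists_pin [Finite T] {p s : ℕ} (hp : p.Prime) (htor : ∀ M : X, p • M = 0)
    (hpoor : RankLE p s (outStr δ ε ρ)) {c₁ : ℕ}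
    (hc : ∀ t, F.size (𝒯.ℓ t) ≤ c₁) :
    ∃ W₀, W₁ ≤ W₀ ∧ F.size W₀ ≤ F.size W₁ + s * c₁ ∧
      ∀ α, (∀ W, α ∈ F.D W) → α ∈ F.N W₀ → ∀ (t : T) (ht : δ t),
        ∃ ht' : δ (𝒯.A α t), cls δ ε (𝒯.A α t) ht' = cls δ ε t ht := by
  have : Fact p.Prime := ⟨hp⟩
  have hfin : Finite (OutT δ ε) := Quot.finite _
  have hpow1 : ∀ W, ∀ e ∈ hs 𝒯 δ ε W, e ^ p = 1 := by
    rintro W e ⟨α, hα, hδ, he2⟩
    have key : ∀ n : ℕ, (∀ t, δ t ↔ δ (𝒯.A (n • α) t)) ∧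
        ∀ t (ht : δ t) (ht' : δ (𝒯.A (n • α) t)),
          (e ^ n) (cls δ ε t ht) = cls δ ε (𝒯.A (n • α) t) ht' := by
      intro n
      induction n with
      | zero =>
        refine ⟨fun t => ?_, fun t ht ht' => ?_⟩
        · rw [zero_smul, 𝒯.zero]
        · rw [pow_zero]
          refine cls_congr _ _ ?_
          rw [zero_smul, 𝒯.zero]
      | succ n ih =>
        refine ⟨fun t => ?_, fun t ht ht' => ?_⟩
        · rw [succ_nsmul', 𝒯.add, ← hδ, ← ih.1]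
        · rw [pow_succ', Equiv.Perm.mul_apply, ih.2 t ht ((ih.1 t).1 ht),
            he2 _ _ ((hδ _).1 ((ih.1 t).1 ht))]
          refine cls_congr _ _ ?_
          rw [succ_nsmul', 𝒯.add]
    obtain ⟨k1, k2⟩ := key p
    refine Equiv.ext fun q => ?_
    obtain ⟨⟨t, ht⟩, rfl⟩ := Quot.exists_rep q
    have h3 := k2 t ht ((k1 t).1 ht)
    refine Eq.trans h3 ?_
    refine cls_congr _ ht ?_
    rw [htor, 𝒯.zero]
  have hcomm : ∀ W, ∀ e ∈ hs 𝒯 δ ε W, ∀ e' ∈ hs 𝒯 δ ε W, e * e' = e' * e := by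
    rintro W e ⟨α, hα, hδ, he⟩ e' ⟨β, hβ, hδ', he'⟩
    refine Equiv.ext fun q => ?_
    obtain ⟨⟨t, ht⟩, rfl⟩ := Quot.exists_rep q
    have h1 : e (e' (cls δ ε t ht)) = e' (e (cls δ ε t ht)) := by
      rw [he' t ht ((hδ' t).1 ht), he t ht ((hδ t).1 ht), he _ _ ((hδ _).1 ((hδ' t).1 ht)),
        he' _ _ ((hδ' _).1 ((hδ t).1 ht))]
      refine cls_congr _ _ ?_
      rw [← 𝒯.add, ← 𝒯.add, add_comm]
    exact h1
  have hpow : ∀ W, ∃ n, Nat.card (hs 𝒯 δ ε W) = p ^ n := by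
    intro W
    have h1 : IsPGroup p (hs 𝒯 δ ε W) := by
      rintro ⟨e, he⟩
      refine ⟨1, Subtype.ext ?_⟩
      show e ^ p ^ 1 = 1
      rw [pow_one]
      exact hpow1 W e he
    exact IsPGroup.iff_card.1 h1
  have main : ∀ n W, W₁ ≤ W → Nat.card (hs 𝒯 δ ε W) ≤ p ^ n →
      ∃ W₀, W ≤ W₀ ∧ F.size W₀ ≤ F.size W + n * c₁ ∧
      ∀ α, (∀ W, α ∈ F.D W) → α ∈ F.N W₀ → ∀ (t : T) (ht : δ t),
        ∃ ht' : δ (𝒯.A α t), cls δ ε (𝒯.A α t) ht' = cls δ ε t ht := by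
    intro n
    induction n with
    | zero =>
      intro W hW hcard
      rw [pow_zero] at hcard
      refine ⟨W, le_rfl, by omega, fun α hα1 hα2 t ht => ?_⟩
      have hα : Gl F W α := ⟨hα1, hα2⟩
      obtain ⟨e, he, h2⟩ := h.exists_perm hW hα
      have h3 : hs 𝒯 δ ε W = ⊥ := Subgroup.eq_bot_of_card_le _ hcard
      rw [h3, Subgroup.mem_bot] at he
      refine ⟨(h.gl_δ hW hα t).1 ht, ?_⟩
      rw [← h2 t ht, he]
      rfl
    | succ n ih =>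
      intro W hW hcard
      by_cases htriv : ∀ α, (∀ W, α ∈ F.D W) → α ∈ F.N W → ∀ (t : T) (ht : δ t),
        ∃ ht' : δ (𝒯.A α t), cls δ ε (𝒯.A α t) ht' = cls δ ε t ht
      · exact ⟨W, le_rfl, Nat.le_add_right _ _, htriv⟩
      · push Not at htriv
        obtain ⟨α, hα1, hα2, t, ht, hne⟩ := htriv
        have hα : Gl F W α := ⟨hα1, hα2⟩
        obtain ⟨e, he, h2⟩ := h.exists_perm hW hα
        have h3 : hs 𝒯 δ ε (W ⊔ 𝒯.ℓ t) < hs 𝒯 δ ε W := by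
          refine lt_of_le_of_ne (hs_anti le_sup_left) fun heq => ?_
          rw [← heq] at he
          obtain ⟨β, hβ, hδ, he2⟩ := he
          have h4 : 𝒯.A β t = t := 𝒯.fix β t (F.N_anti _ _ le_sup_right hβ.2)
          have h5 := he2 t ht ((hδ t).1 ht)
          rw [h2 t ht] at h5
          exact hne ((h.gl_δ hW hα t).1 ht) (h5.trans (cls_congr _ _ h4))
        have h4 : Nat.card (hs 𝒯 δ ε (W ⊔ 𝒯.ℓ t)) < Nat.card (hs 𝒯 δ ε W) :=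
          Set.Finite.card_lt_card (Set.toFinite _) h3
        obtain ⟨m, hm⟩ := hpow (W ⊔ 𝒯.ℓ t)
        have h5 : Nat.card (hs 𝒯 δ ε (W ⊔ 𝒯.ℓ t)) ≤ p ^ n := by
          rw [hm] at h4 ⊢
          have h6 : p ^ m < p ^ (n + 1) := lt_of_lt_of_le h4 hcard
          have h7 : m < n + 1 := (Nat.pow_lt_pow_iff_right hp.one_lt).1 h6
          exact Nat.pow_le_pow_right hp.pos (by omega)
        obtain ⟨W₀, h6, h7, h8⟩ := ih (W ⊔ 𝒯.ℓ t) (hW.trans le_sup_left) h5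
        refine ⟨W₀, le_sup_left.trans h6, ?_, h8⟩
        have h9 := F.size_sup W (𝒯.ℓ t)
        have h10 := hc t
        rw [add_mul, one_mul]
        omega
  obtain ⟨W₀, h6, h7, h8⟩ := main s W₁ le_rfl
    (hpoor _ (h.hs_iso le_rfl) (hpow1 W₁) (hcomm W₁))
  exact ⟨W₀, h6, h7, h8⟩

end

end Pool.Agent.K4H86.OR
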