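import Pool.Agent.K4H86.OR.Logic

/-!
# Structures without automorphisms of order `p`
-/

set_option autoImplicit false
set_option linter.unusedSectionVars false

namespace Pool.Agent.K4H86.OR

theorem rank_zero {p : ℕ} {τ : Voc} {A : Type} {𝒜 : Str τ A}
    (h : ∀ e : Equiv.Perm A, IsIso 𝒜 𝒜 e → e ^ p = 1 → e = 1) : RankLE p 0 𝒜 := by
  intro H h1 h2 _
  have h3 : H = ⊥ := by
    rw [Subgroup.eq_bot_iff_forall]
    exact fun e he => h e (h1 e he) (h2 e he)
  rw [h3, pow_zero, Subgroup.card_bot]

/-- The vocabulary with one binary relation symbol. -/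
def binVoc : Voc := ⟨Unit, fun _ => 2⟩

/-- The structure with one binary relation. -/
def ofRel {A : Type} (R : A → A → Prop) : Str binVoc A :=
  fun _ (x : Fin 2 → A) => R (x 0) (x 1)

theorem ofRel_iso {A : Type} {R : A → A → Prop} {e : A ≃ A} (h : IsIso (ofRel R) (ofRel R) e)
    (x y : A) : R x y ↔ R (e x) (e y) := h () (![x, y] : Fin 2 → A)

/-- Tournaments have no automorphisms of order two. -/
theorem rank_tournament {A : Type} {R : A → A → Prop}
    (hR : ∀ x y, x ≠ y → (R x y ↔ ¬ R y x)) : RankLE 2 0 (ofRel R) := by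
  refine rank_zero fun e he h2 => Equiv.ext fun x => ?_
  by_contra hne
  have hne' : e x ≠ x := hne
  have h3 : e (e x) = x := by
    have h4 := congrArg (fun g : Equiv.Perm A => g x) h2
    rw [pow_two] at h4
    exact h4
  have h5 := ofRel_iso he (e x) x
  rw [h3] at h5
  have h6 := hR (e x) x hne'
  tauto

/-- A permutation whose `p`-th power is the identity fixes the elements of a small invariant
set. -/
theorem fix_of_small {p : ℕ} (hp : p.Prime) {A : Type} {e : Equiv.Perm A} (he : e ^ p = 1)
    {T : Set A} (hT : T.Finite) (hcard : T.ncard < p) (hinv : ∀ x ∈ T, e x ∈ T) (x : A)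
    (hx : x ∈ T) : e x = x := by
  by_contra hne
  have hper : Function.IsPeriodicPt e p x := by
    have h1 := congrArg (fun g : Equiv.Perm A => g x) he
    simp only [Equiv.Perm.coe_one, id_eq] at h1
    rw [← Equiv.Perm.iterate_eq_pow] at h1
    exact h1
  have hdvd := hper.minimalPeriod_dvd
  have hmin : Function.minimalPeriod e x = p := by
    rcases (Nat.dvd_prime hp).1 hdvd with h1 | h1
    · exact absurd (Function.minimalPeriod_eq_one_iff_isFixedPt.1 h1) hne
    · exact h1
  have hinj : Set.InjOn (fun n => e^[n] x) (Set.Iio p) := by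
    have h1 := Function.iterate_injOn_Iio_minimalPeriod (f := e) (x := x)
    rw [hmin] at h1
    exact h1
  have hmem : ∀ n : ℕ, e^[n] x ∈ T := by
    intro n
    induction n with
    | zero => exact hx
    | succ n ih =>
      rw [Function.iterate_succ_apply']
      exact hinv _ ih
  have h2 : ((fun n => e^[n] x) '' (Set.Iio p)).ncard ≤ T.ncard :=
    Set.ncard_le_ncard (by
      rintro _ ⟨n, _, rfl⟩
      exact hmem n) hT
  rw [hinj.ncard_image] at h2
  have h3 : (Set.Iio p).ncard = p := by
    rw [← Finset.coe_Iio, Set.ncard_coe_finset, Nat.card_Iio]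
  omega

/-- Structures with colour classes of fewer than `p` elements have no automorphisms of order
`p`. -/
theorem rank_colours {p : ℕ} (hp : p.Prime) {τ : Voc} {A : Type} [Finite A] {𝒜 : Str τ A}
    {C : Type} (col : A → C) (hcol : ∀ e : A ≃ A, IsIso 𝒜 𝒜 e → ∀ x, col (e x) = col x)
    (hsmall : ∀ c, {x | col x = c}.ncard < p) : RankLE p 0 𝒜 := by
  refine rank_zero fun e he h2 => Equiv.ext fun x => ?_
  refine fix_of_small hp h2 (T := {y | col y = col x}) (Set.toFinite _) (hsmall _) ?_ x rfl
  intro y hy
  show col (e y) = col x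
  rw [hcol e he]
  exact hy

/-- All eigenvalues of the adjacency matrix of `G` are simple: the eigenspaces have dimension at
most one. -/
def SimpleSpectrum {V : Type} [Fintype V] (G : SimpleGraph V) : Prop :=
  open Classical in
  ∀ μ : ℝ, Module.finrank ℝ (Module.End.eigenspace (Matrix.toLin' (G.adjMatrix ℝ)) μ) ≤ 1

/-- Graphs with simple spectrum have no automorphisms of odd prime order. -/
theorem rank_simple {p : ℕ} (hp : p.Prime) (hp2 : p ≠ 2) {V : Type} [Fintype V]
    {G : SimpleGraph V} (hG : SimpleSpectrum G) : RankLE p 0 (ofRel G.Adj) := by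
  classical
  refine rank_zero fun e he h2 => ?_
  have hodd : Odd p := hp.odd_of_ne_two hp2
  have hA : (G.adjMatrix ℝ).IsHermitian := by
    rw [Matrix.IsHermitian, Matrix.conjTranspose_eq_transpose_of_trivial]
    exact G.isSymm_adjMatrix
  have hadj : ∀ x y, G.adjMatrix ℝ (e x) (e y) = G.adjMatrix ℝ x y := by
    intro x y
    rw [SimpleGraph.adjMatrix_apply, SimpleGraph.adjMatrix_apply]
    simp only [← ofRel_iso he x y]
  have hcomm : ∀ f : V → ℝ, (G.adjMatrix ℝ).mulVec (fun x => f (e x)) =
      fun x => (G.adjMatrix ℝ).mulVec f (e x) := by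
    intro f
    funext x
    simp only [Matrix.mulVec, dotProduct]
    rw [← Equiv.sum_comp e fun y => G.adjMatrix ℝ (e x) y * f y]
    refine Finset.sum_congr rfl fun y _ => ?_
    rw [hadj]
  have key : ∀ (μ : ℝ) (f : V → ℝ), (G.adjMatrix ℝ).mulVec f = μ • f → (fun x => f (e x)) = f := by
    intro μ f hf
    by_cases hf0 : f = 0
    · rw [hf0]
      rfl
    have h3 : f ∈ Module.End.eigenspace (Matrix.toLin' (G.adjMatrix ℝ)) μ := by
      rw [Module.End.mem_eigenspace_iff, Matrix.toLin'_apply]
      exact hf
    have h4 : (fun x => f (e x)) ∈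
        Module.End.eigenspace (Matrix.toLin' (G.adjMatrix ℝ)) μ := by
      rw [Module.End.mem_eigenspace_iff, Matrix.toLin'_apply, hcomm, hf]
      rfl
    have h5 := hG μ
    rw [finrank_le_one_iff] at h5
    obtain ⟨v, hv⟩ := h5
    obtain ⟨a, ha⟩ := hv ⟨f, h3⟩
    obtain ⟨c, hc⟩ := hv ⟨_, h4⟩
    have ha' : a • v.1 = f := congrArg Subtype.val ha
    have hc' : c • v.1 = fun x => f (e x) := congrArg Subtype.val hc
    have ha0 : a ≠ 0 := by
      intro h
      rw [h, zero_smul] at ha'
      exact hf0 ha'.symm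
    have h6 : (fun x => f (e x)) = (c / a) • f := by
      rw [← hc', ← ha', smul_smul, div_mul_cancel₀ _ ha0]
    have h7 : ∀ n : ℕ, (fun x => f ((e ^ n) x)) = ((c / a) ^ n) • f := by
      intro n
      induction n with
      | zero => simp
      | succ n ih =>
        funext x
        have h8 := congrFun ih (e x)
        have h9 := congrFun h6 x
        rw [pow_succ, Equiv.Perm.mul_apply]
        simp only [Pi.smul_apply, smul_eq_mul] at h8 h9 ⊢
        rw [h8, h9, pow_succ]
        ring
    have h8 := h7 p
    rw [h2] at h8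
    obtain ⟨x, hx⟩ : ∃ x, f x ≠ 0 := by
      by_contra hcon
      push Not at hcon
      exact hf0 (funext hcon)
    have h9 := congrFun h8 x
    simp only [Equiv.Perm.coe_one, id_eq, Pi.smul_apply, smul_eq_mul] at h9
    have h10 : (c / a) ^ p = 1 := by
      have h11 : ((c / a) ^ p - 1) * f x = 0 := by linarith
      rcases mul_eq_zero.1 h11 with h12 | h12
      · linarith
      · exact absurd h12 hx
    have h11 : c / a = 1 := by
      have := hodd.strictMono_pow.injective (a₁ := c / a) (a₂ := 1) (by
        show (c / a) ^ p = 1 ^ p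
        rw [h10, one_pow])
      exact this
    rw [h6, h11, one_smul]
  let L1 : EuclideanSpace ℝ V →ₗ[ℝ] (V → ℝ) :=
    { toFun := fun f x => f x
      map_add' := fun _ _ => rfl
      map_smul' := fun _ _ => rfl }
  let L2 : EuclideanSpace ℝ V →ₗ[ℝ] (V → ℝ) :=
    { toFun := fun f x => f (e x)
      map_add' := fun _ _ => rfl
      map_smul' := fun _ _ => rfl }
  have hL : L1 = L2 := by
    refine (hA.eigenvectorBasis).toBasis.ext fun i => ?_
    rw [OrthonormalBasis.coe_toBasis]
    exact (key _ _ (hA.mulVec_eigenvectorBasis i)).symm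
  refine Equiv.ext fun x => ?_
  have h3 := congrFun (congrArg (fun L : EuclideanSpace ℝ V →ₗ[ℝ] (V → ℝ) =>
    L (EuclideanSpace.single x 1)) hL) x
  have h4 : (EuclideanSpace.single x (1 : ℝ)) x = (EuclideanSpace.single x (1 : ℝ)) (e x) := h3
  rw [PiLp.single_apply, PiLp.single_apply, if_pos rfl] at h4
  by_contra hne
  have hne' : e x ≠ x := hne
  rw [if_neg hne'] at h4
  exact one_ne_zero h4

/-- Connected graphs with a root and degrees less than `p` have no automorphisms of order `p` which
fix the root. -/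
theorem rank_degree {p : ℕ} (hp : p.Prime) {τ : Voc} {V : Type} [Finite V] {G : SimpleGraph V}
    (hconn : G.Connected) (hdeg : ∀ x, (G.neighborSet x).ncard < p) (o : V) {𝒜 : Str τ V}
    (h𝒜 : ∀ e : V ≃ V, IsIso 𝒜 𝒜 e → e o = o ∧ ∀ x y, G.Adj x y → G.Adj (e x) (e y)) :
    RankLE p 0 𝒜 := by
  refine rank_zero fun e he h2 => Equiv.ext fun x => ?_
  obtain ⟨ho, hadj⟩ := h𝒜 e he
  obtain ⟨w⟩ := hconn.preconnected o x
  have key : ∀ (a b : V) (w : G.Walk a b), e a = a → e b = b := by
    intro a b w
    induction w with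
    | nil => exact fun h => h
    | cons hab w ih =>
      intro ha
      refine ih ?_
      refine fix_of_small hp h2 (Set.toFinite (G.neighborSet _)) (hdeg _) ?_ _ hab
      intro y hy
      have h3 := hadj _ _ hy
      rw [ha] at h3
      exact h3
  exact key o x w ho

end Pool.Agent.K4H86.OR
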