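import Pool.Agent.K4H86.OR.Chain

/-!
# Local isomorphisms preserve the formulas
-/

set_option autoImplicit false
set_option linter.unusedSectionVars false

namespace Pool.Agent.K4H86.OR

open Pool.Agent.Y598.IM Pool.Agent.TH658.Sos
open Pool.Agent.TH658.Sos.Act (lvT lvT_congr lv_le_lvT)

variable {X L V B : Type} [AddCommGroup X] [SemilatticeSup L] [OrderBot L] {F : Fam X L V B}

/-- Gluing. -/
theorem glue {T : Type} {𝒯 : TAct F T} {τ : Voc} {b b' : B} {W₁ : L} {M₁ : X}
    {δ δ' : T → Prop} {ε ε' : T → T → Prop} {ρ ρ' : ∀ i : τ.Sym, (Fin (τ.ar i) → T) → Prop}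
    [Finite T] {p s : ℕ} (hp : p.Prime) (htor : ∀ M : X, p • M = 0) (hglob : Globalises F)
    (h : Inv 𝒯 b b' W₁ M₁ δ δ' ε ε' ρ ρ') (hb : Inv 𝒯 b b W₁ 0 δ δ ε ε ρ ρ)
    (hM₁ : M₁ ∈ F.Sol b b' W₁) {c₁ c₂ : ℕ}
    (hc : ∀ t, F.size (𝒯.ℓ t) ≤ c₁)
    (hc₂ : ∀ (i : τ.Sym) (a : Fin (τ.ar i) → T), F.size (𝒯.lvS a) ≤ c₂)
    (hK : F.size W₁ + (s + 3) * c₁ + c₂ ≤ F.K)
    (hpoor : RankLE p s (outStr δ ε ρ)) :
    ∃ e : OutT δ ε ≃ OutT δ' ε', IsIso (outStr δ ε ρ) (outStr δ' ε' ρ') e := by
  obtain ⟨W₀, hW, hsz, htriv⟩ := hb.exists_pin hp htor hpoor hc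
  rw [add_mul] at hK
  obtain ⟨M₀, hM₀, hMN⟩ := F.extend b b' W₁ W₀ hW (by omega) M₁ hM₁
  exact glue_aux h hW hM₀ hMN hglob hc hc₂ (by omega) htriv

theorem put_comp {k : ℕ} {α V V' : Type} (f : V → V') (β : α ↪ Fin k) (S : Fin k → V)
    (a : α → V) : (fun v => f (put β S a v)) = put β (fun v => f (S v)) fun x => f (a x) := by
  funext v
  unfold put
  by_cases h : ∃ x, β x = v
  · obtain ⟨x, rfl⟩ := h
    rw [β.injective.extend_apply, β.injective.extend_apply]
  · rw [Function.extend_apply' _ _ _ h, Function.extend_apply' _ _ _ h]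

theorem lvT_put {k : ℕ} {α : Type} [Fintype α] (lv : V → L) (β : α ↪ Fin k) (S : Fin k → V)
    (a : α → V) : lvT lv (put β S a) ≤ lvT lv S ⊔ lvT lv a := by
  refine Finset.sup_le fun v _ => ?_
  unfold put
  by_cases h : ∃ x, β x = v
  · obtain ⟨x, rfl⟩ := h
    rw [β.injective.extend_apply]
    exact (lv_le_lvT a x).trans le_sup_right
  · rw [Function.extend_apply' _ _ _ h]
    exact (lv_le_lvT S v).trans le_sup_left

theorem size_lvT' (F : Fam X L V B) {ι : Type} [Fintype ι] (w : ι → V) :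
    F.size (lvT F.lv w) ≤ F.c * Fintype.card ι := by
  classical
  have h : ∀ s : Finset ι, F.size (s.sup fun a => F.lv (w a)) ≤ F.c * s.card := by
    intro s
    induction s using Finset.induction_on with
    | empty => simp [F.size_bot]
    | insert a s ha ih =>
      rw [Finset.sup_insert, Finset.card_insert_of_notMem ha]
      have h1 := F.size_sup (F.lv (w a)) (s.sup fun a => F.lv (w a))
      have h2 := F.size_lv (w a)
      rw [mul_add, mul_one]
      omega
  exact h Finset.univ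

instance {T : Type} [Finite T] (δ : T → Prop) (ε : T → T → Prop) : Finite (OutT δ ε) :=
  Quot.finite _

/-- The action on tuples. -/
def tupAct (F : Fam X L V B) (m : ℕ) : TAct F (Fin m → V) where
  A M a := fun i => F.act M (a i)
  ℓ a := lvT F.lv a
  zero _ := funext fun _ => F.act_zero _
  add _ _ _ := funext fun _ => F.act_add _ _ _
  lv M _ := lvT_congr fun _ => F.lv_act M _
  fix M a h := funext fun i => F.fix M _ (F.N_anti _ _ (lv_le_lvT a i) h)

theorem comp_congr {W : L} {M M' : X} {k : ℕ} {S : Fin k → V} (h : M' - M ∈ F.N W)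
    (hS : lvT F.lv S ≤ W) : (fun i => F.act M' (S i)) = fun i => F.act M (S i) :=
  funext fun i => F.act_congr h ((lv_le_lvT S i).trans hS)

variable [Fintype V]

/-- The formula is preserved by the local isomorphisms. -/
def Pres (F : Fam X L V B) (U : V → Prop) {k p : ℕ} {f : ℕ → ℕ} (φ : Fml k p f) : Prop :=
  ∀ (b b' : B) (S : Fin k → V) (M : X), M ∈ F.Sol b b' (lvT F.lv S) →
    (Sat (F.G b) U φ S ↔ Sat (F.G b') U φ fun i => F.act M (S i))

theorem Pres.put {U : V → Prop} {k p : ℕ} {f : ℕ → ℕ} {φ : Fml k p f} (h : Pres F U φ) {α : Type}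
    [Fintype α] (β : α ↪ Fin k) {b b' : B} {S : Fin k → V} {M₁ M : X} {a : α → V} {W : L}
    (hN : M - M₁ ∈ F.N (lvT F.lv S)) (hM : M ∈ F.Sol b b' (lvT F.lv S ⊔ W))
    (ha : lvT F.lv a ≤ W) :
    Sat (F.G b) U φ (put β S a) ↔
      Sat (F.G b') U φ (OR.put β (fun i => F.act M₁ (S i)) fun x => F.act M (a x)) := by
  have h1 := h b b' (OR.put β S a) M (F.Sol_anti _ _ _ _
    ((lvT_put F.lv β S a).trans (sup_le_sup_left ha _)) hM)
  rw [put_comp, comp_congr hN le_rfl] at h1
  exact h1

theorem inv_of {U : V → Prop} {k p : ℕ} {f : ℕ → ℕ} {τ : Voc} {m : ℕ} {βδ : Fin m ↪ Fin k}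
    {δ : Fml k p f} {βε : Fin m ⊕ Fin m ↪ Fin k} {ε : Fml k p f}
    {βρ : ∀ i : τ.Sym, Fin (τ.ar i) × Fin m ↪ Fin k} {ρ : τ.Sym → Fml k p f}
    (hδ : Pres F U δ) (hε : Pres F U ε) (hρ : ∀ i, Pres F U (ρ i)) (b b' : B) (S : Fin k → V)
    (M₁ : X) :
    Inv (tupAct F m) b b' (lvT F.lv S) M₁
      (fun a => Sat (F.G b) U δ (put βδ S a))
      (fun a => Sat (F.G b') U δ (put βδ (fun i => F.act M₁ (S i)) a))
      (fun a c => Sat (F.G b) U ε (put βε S (Sum.elim a c)))
      (fun a c => Sat (F.G b') U ε (put βε (fun i => F.act M₁ (S i)) (Sum.elim a c)))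
      (fun i a => Sat (F.G b) U (ρ i) (put (βρ i) S fun x => a x.1 x.2))
      (fun i a => Sat (F.G b') U (ρ i) (put (βρ i) (fun i => F.act M₁ (S i))
        fun x => a x.1 x.2)) where
  hδ M a hN hM := hδ.put βδ hN hM le_rfl
  hε M a c hN hM := by
    have h1 := hε.put βε (a := Sum.elim a c) hN hM (by
      refine Finset.sup_le fun x _ => ?_
      rcases x with x | x
      · exact (lv_le_lvT a x).trans le_sup_left
      · exact (lv_le_lvT c x).trans le_sup_right)
    have h2 : (fun x => F.act M (Sum.elim a c x)) =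
        Sum.elim (fun x => F.act M (a x)) fun x => F.act M (c x) := by
      funext x
      rcases x with x | x <;> rfl
    rw [h2] at h1
    exact h1
  hρ M i a hN hM := (hρ i).put (βρ i) (a := fun x : Fin (τ.ar i) × Fin m => a x.1 x.2) hN hM (by
    refine Finset.sup_le fun x _ => ?_
    exact (lv_le_lvT (a x.1) x.2).trans ((tupAct F m).le_lvS a x.1))

theorem card_update {U : V → Prop} {k p : ℕ} {f : ℕ → ℕ} {φ : Fml k p f} (h : Pres F U φ)
    (hK : F.c * k + F.c ≤ F.K) {b b' : B} {S : Fin k → V} {M : X}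
    (hM : M ∈ F.Sol b b' (lvT F.lv S)) (i : Fin k) :
    Nat.card {x : V // Sat (F.G b) U φ (Function.update S i x)} =
      Nat.card {x : V // Sat (F.G b') U φ
        (Function.update (fun j => F.act M (S j)) i x)} := by
  have hex : ∀ W : L, ∃ M' : X, F.size W ≤ F.c →
      M' ∈ F.Sol b b' (lvT F.lv S ⊔ W) ∧ M' - M ∈ F.N (lvT F.lv S) := by
    intro W
    by_cases hW : F.size W ≤ F.c
    · obtain ⟨M', hM', hN⟩ := F.extend b b' (lvT F.lv S) (lvT F.lv S ⊔ W) le_sup_left (by
        have h1 := F.size_sup (lvT F.lv S) W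
        have h2 := F.size_lvT S
        omega) M hM
      exact ⟨M', fun _ => ⟨hM', hN⟩⟩
    · exact ⟨0, fun h => absurd h hW⟩
  choose Mf hMf using hex
  let e : V ≃ V := ⟨fun x => F.act (Mf (F.lv x)) x, fun x => F.act (-(Mf (F.lv x))) x, by
      intro x
      show F.act (-(Mf (F.lv (F.act (Mf (F.lv x)) x)))) (F.act (Mf (F.lv x)) x) = x
      rw [F.lv_act, F.act_neg_act], by
      intro x
      show F.act (Mf (F.lv (F.act (-(Mf (F.lv x))) x))) (F.act (-(Mf (F.lv x))) x) = x
      rw [F.lv_act, F.act_act_neg]⟩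
  refine Nat.card_congr (e.subtypeEquiv fun x => ?_)
  obtain ⟨h1, h2⟩ := hMf (F.lv x) (F.size_lv x)
  have h3 := h b b' (Function.update S i x) (Mf (F.lv x)) (F.Sol_anti _ _ _ _ (by
    refine Finset.sup_le fun j _ => ?_
    by_cases hj : j = i
    · rw [hj, Function.update_self]
      exact le_sup_right
    · rw [Function.update_of_ne hj]
      exact (lv_le_lvT S j).trans le_sup_left) h1)
  have h4 : (fun j => F.act (Mf (F.lv x)) (Function.update S i x j)) =
      Function.update (fun j => F.act M (S j)) i (e x) := by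
    funext j
    by_cases hj : j = i
    · rw [hj, Function.update_self, Function.update_self]
      rfl
    · rw [Function.update_of_ne hj, Function.update_of_ne hj]
      exact F.act_congr h2 (lv_le_lvT S j)
  rw [h4] at h3
  exact h3

variable [Fintype X] [Nonempty V]

theorem RankLE.mono {p s s' : ℕ} (hp : p.Prime) (hs : s ≤ s') {τ : Voc} {A : Type}
    {𝒜 : Str τ A} (h : RankLE p s 𝒜) : RankLE p s' 𝒜 :=
  fun H h1 h2 h3 => (h H h1 h2 h3).trans (Nat.pow_le_pow_right hp.pos hs)

theorem card_out {m k : ℕ} (hm : m ≤ k) (δ : (Fin m → V) → Prop)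
    (ε : (Fin m → V) → (Fin m → V) → Prop) :
    Nat.card (OutT δ ε) ≤ Fintype.card V ^ k := by
  classical
  calc Nat.card (OutT δ ε) ≤ Nat.card {a : Fin m → V // δ a} :=
        Nat.card_le_card_of_surjective _ Quot.mk_surjective
    _ ≤ Nat.card (Fin m → V) := Nat.card_le_card_of_injective _ Subtype.val_injective
    _ = Fintype.card V ^ m := by
      rw [Nat.card_eq_fintype_card, Fintype.card_fun, Fintype.card_fin]
    _ ≤ _ := Nat.pow_le_pow_right Fintype.card_pos hm

/-- **Local isomorphisms preserve all formulas.** -/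
theorem pres {U : V → Prop} (hU : ∀ M x, U (F.act M x) ↔ U x) {k p s : ℕ} {f : ℕ → ℕ}
    (hp : p.Prime) (htor : ∀ M : X, p • M = 0)
    (hX : ∀ (K : Type) [Field K], (p : K) ≠ 0 → (Fintype.card X : K) ≠ 0)
    (hglob : Globalises F) (hK : F.c * k * (s + 5) ≤ F.K)
    (hf : ∀ j ≤ Fintype.card V ^ k, f j ≤ s) (φ : Fml k p f) : Pres F U φ := by
  classical
  have hK1 : F.c * k * 5 ≤ F.K := (Nat.mul_le_mul_left _ (by omega)).trans hK
  induction φ with
  | eq i j =>
    intro b b' S M hM
    exact (F.act M).injective.eq_iff.symm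
  | adj i j =>
    intro b b' S M hM
    exact F.adj b b' (S i) (S j) M (F.Sol_anti _ _ _ _ (sup_le (lv_le_lvT S i)
      (lv_le_lvT S j)) hM)
  | mark i =>
    intro b b' S M hM
    exact (hU M (S i)).symm
  | not φ ih =>
    intro b b' S M hM
    exact not_congr (ih b b' S M hM)
  | all ι φ ih =>
    intro b b' S M hM
    exact forall_congr' fun i => ih i b b' S M hM
  | count n i φ ih =>
    intro b b' S M hM
    show n ≤ _ ↔ n ≤ _
    rw [card_update ih (by
      have h1 : 1 ≤ k := Nat.one_le_of_lt i.2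
      have h2 : F.c * 1 ≤ F.c * k := Nat.mul_le_mul_left _ h1
      omega) hM i]
  | @lin K _ _ hK0 ι C m β φ ih =>
    have key : ∀ (b b' : B) (S : Fin k → V) (M : X), M ∈ F.Sol b b' (lvT F.lv S) →
        Sat (F.G b) U (.lin K hK0 ι C m β φ) S →
        Sat (F.G b') U (.lin K hK0 ι C m β φ) fun i => F.act M (S i) := by
      intro b b' S M hM hS
      obtain ⟨P, Q, hPQ, hQP, hmain⟩ := F.exists_similar (K := K) (hX K hK0) b b' [] (k := k)
        (m := m) (by
          show F.size ⊥ + 4 * (F.c * k) ≤ F.K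
          rw [F.size_bot]
          omega) β S (M₀ := M) (by
          show M ∈ F.Sol b b' (⊥ ⊔ lvT F.lv S)
          rw [bot_sup_eq]
          exact hM)
      refine C.sim _ _ _ _ P Q hPQ hQP (fun i => ?_) hS
      exact hmain (fun w => if Sat (F.G b) U (φ i) w then 1 else 0)
        (fun w => if Sat (F.G b') U (φ i) w then 1 else 0) (fun w M' hM' _ => by
          refine if_congr (ih i b b' w M' ?_) rfl rfl
          have h2 : M' ∈ F.Sol b b' (⊥ ⊔ lvT F.lv w) := hM'
          rwa [bot_sup_eq] at h2)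
    intro b b' S M hM
    refine ⟨key b b' S M hM, fun h => ?_⟩
    have h1 := key b' b _ (-M) (by
      have : lvT F.lv (fun i => F.act M (S i)) = lvT F.lv S :=
        lvT_congr fun i => F.lv_act M _
      rw [this]
      exact F.neg_mem _ _ _ _ hM) h
    simp only [F.act_neg_act] at h1
    exact h1
  | quant τ C m βδ δ βε ε βρ ρ ihδ ihε ihρ =>
    have key : ∀ (b b' : B) (S : Fin k → V) (M : X), M ∈ F.Sol b b' (lvT F.lv S) →
        Sat (F.G b) U (.quant τ C m βδ δ βε ε βρ ρ) S →
        Sat (F.G b') U (.quant τ C m βδ δ βε ε βρ ρ) fun i => F.act M (S i) := by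
      intro b b' S M hM hS
      have h0 := inv_of (βδ := βδ) (βε := βε) (βρ := βρ) ihδ ihε ihρ b b S 0
      have e0 : (fun i => F.act 0 (S i)) = S := funext fun i => F.act_zero _
      rw [e0] at h0
      have h1 := inv_of (βδ := βδ) (βε := βε) (βρ := βρ) ihδ ihε ihρ b b' S M
      have hm : m ≤ k := by
        have := Fintype.card_le_of_embedding βδ
        rwa [Fintype.card_fin, Fintype.card_fin] at this
      obtain ⟨e, he⟩ := glue (s := s) hp htor hglob h1 h0 hM (c₁ := F.c * k) (c₂ := F.c * k)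
        (fun t => (F.size_lvT t).trans (Nat.mul_le_mul_left _ hm))
        (fun i a => by
          have h3 := Fintype.card_le_of_embedding (βρ i)
          rw [Fintype.card_fin] at h3
          refine le_trans (F.size_mono _ _ ?_) ((size_lvT' F
            (fun x : Fin (τ.ar i) × Fin m => a x.1 x.2)).trans (Nat.mul_le_mul_left _ h3))
          refine Finset.sup_le fun j _ => ?_
          show lvT F.lv (a j) ≤ _
          refine Finset.sup_le fun l _ => ?_
          exact lv_le_lvT (fun x : Fin (τ.ar i) × Fin m => a x.1 x.2) (j, l))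
        (by
          have h2 := F.size_lvT S
          calc F.size (lvT F.lv S) + (s + 3) * (F.c * k) + F.c * k
              ≤ F.c * k + (s + 3) * (F.c * k) + F.c * k := by omega
            _ = F.c * k * (s + 5) := by ring
            _ ≤ _ := hK)
        ((C.rank _ _ hS).mono hp (hf _ (card_out hm _ _)))
      exact C.iso _ _ _ _ e he hS
    intro b b' S M hM
    refine ⟨key b b' S M hM, fun h => ?_⟩
    have h1 := key b' b _ (-M) (by
      have : lvT F.lv (fun i => F.act M (S i)) = lvT F.lv S :=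
        lvT_congr fun i => F.lv_act M _
      rw [this]
      exact F.neg_mem _ _ _ _ hM) h
    simp only [F.act_neg_act] at h1
    exact h1

/-- Outputs of interpretations are isomorphic. -/
theorem out_iso {U : V → Prop} (hU : ∀ M x, U (F.act M x) ↔ U x) {k p s : ℕ} {f : ℕ → ℕ}
    (hp : p.Prime) (htor : ∀ M : X, p • M = 0)
    (hX : ∀ (K : Type) [Field K], (p : K) ≠ 0 → (Fintype.card X : K) ≠ 0)
    (hglob : Globalises F) (hK : F.c * k * (s + 5) ≤ F.K)
    (hf : ∀ j ≤ Fintype.card V ^ k, f j ≤ s) {τ : Voc} (I : Interp k p f τ)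
    (b b' : B) (S : Fin k → V) (M : X) (hM : M ∈ F.Sol b b' (lvT F.lv S))
    (hr : RankLE p (f (Nat.card (I.Carrier (F.G b) U S))) (I.out (F.G b) U S)) :
    ∃ e : I.Carrier (F.G b) U S ≃ I.Carrier (F.G b') U fun i => F.act M (S i),
      IsIso (I.out (F.G b) U S) (I.out (F.G b') U fun i => F.act M (S i)) e := by
  classical
  have hpr := pres (F := F) (k := k) (s := s) hU hp htor hX hglob hK hf
  have h0 := inv_of (βδ := I.βδ) (βε := I.βε) (βρ := I.βρ) (hpr I.δ) (hpr I.ε)
    (fun i => hpr (I.ρ i)) b b S 0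
  have e0 : (fun i => F.act 0 (S i)) = S := funext fun i => F.act_zero _
  rw [e0] at h0
  have h1 := inv_of (βδ := I.βδ) (βε := I.βε) (βρ := I.βρ) (hpr I.δ) (hpr I.ε)
    (fun i => hpr (I.ρ i)) b b' S M
  have hm : I.m ≤ k := by
    have := Fintype.card_le_of_embedding I.βδ
    rwa [Fintype.card_fin, Fintype.card_fin] at this
  exact glue (s := s) hp htor hglob h1 h0 hM (c₁ := F.c * k) (c₂ := F.c * k)
    (fun t => (F.size_lvT t).trans (Nat.mul_le_mul_left _ hm))
    (fun i a => by
      have h3 := Fintype.card_le_of_embedding (I.βρ i)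
      rw [Fintype.card_fin] at h3
      refine le_trans (F.size_mono _ _ ?_) ((size_lvT' F
        (fun x : Fin (τ.ar i) × Fin I.m => a x.1 x.2)).trans (Nat.mul_le_mul_left _ h3))
      refine Finset.sup_le fun j _ => ?_
      show lvT F.lv (a j) ≤ _
      refine Finset.sup_le fun l _ => ?_
      exact lv_le_lvT (fun x : Fin (τ.ar i) × Fin I.m => a x.1 x.2) (j, l))
    (by
      have h2 := F.size_lvT S
      calc F.size (lvT F.lv S) + (s + 3) * (F.c * k) + F.c * k
          ≤ F.c * k + (s + 3) * (F.c * k) + F.c * k := by omega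
        _ = F.c * k * (s + 5) := by ring
        _ ≤ _ := hK)
    (hr.mono hp (hf _ (card_out hm _ _)))

/-- **The members of the family are alike for the logic.** -/
theorem like {U : V → Prop} (hU : ∀ M x, U (F.act M x) ↔ U x) {k p s : ℕ} {f : ℕ → ℕ}
    (hp : p.Prime) (htor : ∀ M : X, p • M = 0)
    (hX : ∀ (K : Type) [Field K], (p : K) ≠ 0 → (Fintype.card X : K) ≠ 0)
    (hglob : Globalises F) (hK : F.c * k * (s + 5) ≤ F.K)
    (hf : ∀ j ≤ Fintype.card V ^ k, f j ≤ s) (b b' : B) :
    Like k p f (F.G b) U (F.G b') U := by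
  have hex : ∀ W : L, ∃ M : X, F.size W ≤ F.c * k → M ∈ F.Sol b b' W := by
    intro W
    by_cases hW : F.size W ≤ F.c * k
    · obtain ⟨M, hM⟩ := F.bot_sol b b'
      obtain ⟨M', hM', _⟩ := F.extend b b' ⊥ W bot_le (by
        have : F.c * k * 1 ≤ F.c * k * (s + 5) := Nat.mul_le_mul_left _ (by omega)
        omega) M hM
      exact ⟨M', fun _ => hM'⟩
    · exact ⟨0, fun h => absurd h hW⟩
  choose Mf hMf using hex
  have e1 : ∀ (M : X) (S : Fin k → V), lvT F.lv (fun i => F.act M (S i)) = lvT F.lv S :=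
    fun M S => lvT_congr fun i => F.lv_act M _
  refine ⟨⟨fun S i => F.act (Mf (lvT F.lv S)) (S i), fun S i => F.act (-(Mf (lvT F.lv S))) (S i),
    ?_, ?_⟩, ?_, ?_⟩
  · intro S
    funext i
    show F.act (-(Mf (lvT F.lv fun i => F.act (Mf (lvT F.lv S)) (S i))))
      (F.act (Mf (lvT F.lv S)) (S i)) = S i
    rw [e1, F.act_neg_act]
  · intro S
    funext i
    show F.act (Mf (lvT F.lv fun i => F.act (-(Mf (lvT F.lv S))) (S i)))
      (F.act (-(Mf (lvT F.lv S))) (S i)) = S i
    rw [e1, F.act_act_neg]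
  · intro φ S
    exact pres (F := F) (k := k) (s := s) hU hp htor hX hglob hK hf φ b b' S _
      (hMf _ (F.size_lvT S))
  · intro τ I S hr
    have hM := hMf _ (F.size_lvT S)
    rcases hr with hr | hr
    · exact out_iso hU hp htor hX hglob hK hf I b b' S _ hM hr
    · have h1 := out_iso hU hp htor hX hglob hK hf I b' b
        (fun i => F.act (Mf (lvT F.lv S)) (S i)) (-(Mf (lvT F.lv S))) (by
          rw [e1]
          exact F.neg_mem _ _ _ _ hM) hr
      have e2 : (fun i => F.act (-(Mf (lvT F.lv S))) (F.act (Mf (lvT F.lv S)) (S i))) = S :=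
        funext fun i => F.act_neg_act _ _
      rw [e2] at h1
      obtain ⟨e, he⟩ := h1
      refine ⟨e.symm, fun i x => ?_⟩
      have h2 := he i fun j => e.symm (x j)
      have h3 : (fun j => e (e.symm (x j))) = x := funext fun j => e.apply_symm_apply _
      rw [h3] at h2
      exact h2.symm

end Pool.Agent.K4H86.OR
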