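import Pool.Agent.K4H86.OR.CfiP
import Pool.Agent.K4H86.OR.Invar

/-!
# The local isomorphisms of the Cai-Fürer-Immerman graphs for the group of order `p`
-/

set_option autoImplicit false
set_option linter.unusedSectionVars false

namespace Pool.Agent.K4H86.OR

open Finset Pool.Agent.Y598.CG Pool.Agent.Y598.VT Pool.Agent.Y598.IM

variable {p : ℕ} [Fact p.Prime] {r : ℕ} [NeZero r]

/-- The signs of the two sides. -/
def sg (p : ℕ) (v : Lp r) : ZMod p := if v.s then -1 else 1

theorem sg_nb (v : Lp r) (j : Fin 3) : sg p (nb v j) = -sg p v := by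
  unfold sg
  rw [nb_s]
  cases v.s
  · rfl
  · exact (neg_neg _).symm

theorem sg_sq (v : Lp r) : sg p v * sg p v = 1 := by
  unfold sg
  cases v.s
  · exact one_mul _
  · show (-1 : ZMod p) * -1 = 1
    ring

/-- The signed incidence matrix. -/
def incp (p : ℕ) (v : Lp r) (e : Ed r) : ZMod p := if ed v e.2 = e then sg p v else 0

theorem incp_ed (v w : Lp r) (j : Fin 3) :
    incp p w (ed v j) = if w = v ∨ w = nb v j then sg p w else 0 := by
  unfold incp
  refine if_congr ?_ rfl rfl
  show ed w j = ed v j ↔ _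
  rw [ed_eq_iff]
  exact ⟨fun h => h.2, fun h => ⟨rfl, h⟩⟩

theorem incp_sum (v : Lp r) (M : Ed r → ZMod p) :
    ∑ e, incp p v e * M e = sg p v * ∑ j, M (ed v j) := by
  unfold incp
  rw [Fintype.sum_prod_type, Finset.sum_comm, Finset.mul_sum]
  refine Finset.sum_congr rfl fun j _ => ?_
  rw [Finset.sum_eq_single (ed v j).1]
  · show (if ed v j = ed v j then sg p v else 0) * M (ed v j) = _
    rw [if_pos rfl]
  · intro e _ he
    rw [if_neg (fun h => he (congrArg Prod.fst h).symm), zero_mul]
  · intro h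
    exact absurd (Finset.mem_univ _) h

theorem Zr_incp (t : Lp r → ZMod p) (v : Lp r) (j : Fin 3) :
    Zr (incp p) t (ed v j) = sg p v * (t v - t (nb v j)) := by
  unfold Zr
  simp only [incp_ed]
  have h1 : ∀ w : Lp r, t w * (if w = v ∨ w = nb v j then sg p w else 0) =
      if w = v ∨ w = nb v j then t w * sg p w else 0 := by
    intro w
    rw [mul_ite, mul_zero]
  simp only [h1]
  rw [← Finset.sum_filter]
  have h3 : (Finset.univ.filter fun w : Lp r => w = v ∨ w = nb v j) = {v, nb v j} := by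
    ext w
    rw [Finset.mem_filter, Finset.mem_insert, Finset.mem_singleton]
    exact ⟨fun h => h.2, fun h => ⟨Finset.mem_univ _, h⟩⟩
  rw [h3, Finset.sum_pair (nb_ne v j).symm, sg_nb]
  ring

theorem eq_nb_of_p {t : Lp r → ZMod p} {v : Lp r} {j : Fin 3}
    (h : Zr (incp p) t (ed v j) = 0) : t v = t (nb v j) := by
  rw [Zr_incp] at h
  have h1 := congrArg (fun a => sg p v * a) h
  simp only [mul_zero, ← mul_assoc, sg_sq, one_mul] at h1
  exact sub_eq_zero.1 h1

/-- Every edge is at some port. -/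
theorem exists_ed (e : Ed r) : ∃ v j, e = ed v j := by
  obtain ⟨⟨x, i⟩, j⟩ := e
  exact ⟨⟨x, i, false⟩, j, rfl⟩

open Classical in
/-- Indicator functions. -/
noncomputable def ind (f : Lp r → Prop) (v : Lp r) : ZMod 2 := if f v then 1 else 0

theorem mem_supp_ind {f : Lp r → Prop} {v : Lp r} : v ∈ supp (ind f) ↔ f v := by
  rw [mem_supp]
  unfold ind
  by_cases h : f v
  · rw [if_pos h]
    exact ⟨fun _ => h, fun _ => one_ne_zero⟩
  · rw [if_neg h]
    exact ⟨fun h' => absurd rfl h', fun h' => absurd h' h⟩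

theorem Zr_ind {f : Lp r → Prop} {W : Finset (Ed r)}
    (h : ∀ v j, ed v j ∉ W → (f v ↔ f (nb v j))) (e : Ed r) (he : e ∉ W) :
    Zr inc (ind f) e = 0 := by
  obtain ⟨v, j, rfl⟩ := exists_ed e
  rw [Zr_inc]
  have h1 : ind f (nb v j) = ind f v := by
    unfold ind
    by_cases hf : f v
    · rw [if_pos hf, if_pos ((h v j he).1 hf)]
    · rw [if_neg hf, if_neg fun h' => hf ((h v j he).2 h')]
  rw [h1]
  exact CharTwo.add_self_eq_zero _

theorem card_Lp' (hr : 4 ≤ r) : Fintype.card (Lp r) = 6 * (r * 3 ^ (r - 1)) := by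
  rw [card_Lp]
  obtain ⟨q, hq⟩ := Nat.exists_eq_add_of_le' (show 1 ≤ r by omega)
  have h1 : r - 1 = q := by omega
  rw [h1]
  conv_lhs => rw [hq, pow_add]
  rw [hq]
  ring

/-- Small cuts have a small side. -/
theorem cut (hr : 4 ≤ r) {f : Lp r → Prop} {W : Finset (Ed r)} (hW : W.card ≤ 3 ^ (r - 4))
    (h : ∀ v j, ed v j ∉ W → (f v ↔ f (nb v j))) :
    (supp (ind f)).card ≤ r * 3 ^ (r - 1) ∨ 5 * (r * 3 ^ (r - 1)) ≤ (supp (ind f)).card := by
  have hN := card_Lp' (r := r) hr
  have hL : Fintype.card (Ld r) = 3 * (r * 3 ^ (r - 1)) := by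
    have h1 := card_Lp (r := r)
    rw [card_Ld]
    rw [hN] at h1
    omega
  have h4 := isoper (Zr_ind h)
  rw [hN, hL] at h4
  have h7 : 27 * r * 3 ^ (r - 4) = r * 3 ^ (r - 1) := by
    obtain ⟨q, hq⟩ := Nat.exists_eq_add_of_le' hr
    have e1 : r - 4 = q := by omega
    have e2 : r - 1 = q + 3 := by omega
    rw [e1, e2, pow_add]
    ring
  have hpos : 0 < r * 3 ^ (r - 1) := by positivity
  obtain ⟨n, hn⟩ : ∃ n, n = r * 3 ^ (r - 1) := ⟨_, rfl⟩
  obtain ⟨a, ha⟩ : ∃ a, a = (supp (ind f)).card := ⟨_, rfl⟩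
  rw [← hn] at h4 h7 hpos ⊢
  rw [← ha] at h4 ⊢
  by_contra hcon
  push Not at hcon
  obtain ⟨c1, c2⟩ := hcon
  have h6 : 24 * r * (3 * n) * W.card ≤ 24 * r * (3 * n) * 3 ^ (r - 4) :=
    Nat.mul_le_mul_left _ hW
  have h8 : 24 * r * (3 * n) * 3 ^ (r - 4) ≤ 3 * (n * n) := by
    calc 24 * r * (3 * n) * 3 ^ (r - 4) = (24 * r * 3 ^ (r - 4)) * (3 * n) := by ring
      _ ≤ (27 * r * 3 ^ (r - 4)) * (3 * n) := by
        refine Nat.mul_le_mul_right _ (Nat.mul_le_mul_right _ (Nat.mul_le_mul_right _ ?_))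
        norm_num
      _ = n * (3 * n) := by rw [h7]
      _ = _ := by ring
  have h9 := h4.trans (h6.trans h8)
  obtain ⟨c, hc⟩ := Nat.exists_eq_add_of_le c1.le
  obtain ⟨d, hd⟩ := Nat.exists_eq_add_of_le c2.le
  have h10 : 6 * n - a = n + d := by omega
  rw [h10] at h9
  have h11 : a * (n + d) = 5 * (n * n) + c * d := by
    have e1 : d = 4 * n - c := by omega
    have e2 : c ≤ 4 * n := by omega
    zify [e2] at *
    rw [e1, hc]
    ring
  nlinarith [h9, h11, hpos]

/-- **Functions which are constant across all but few edges are nearly constant.** -/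
theorem near_const (hr : 4 ≤ r) {t : Lp r → ZMod p} {W : Finset (Ed r)}
    (hW : W.card ≤ 3 ^ (r - 4)) (h : ∀ e, e ∉ W → Zr (incp p) t e = 0) :
    ∃ c, (supp (t - fun _ => c)).card ≤ r * 3 ^ (r - 1) := by
  classical
  have hp : p.Prime := Fact.out
  have : NeZero p := ⟨hp.ne_zero⟩
  have hN := card_Lp' (r := r) hr
  have hpos : 0 < r * 3 ^ (r - 1) := by positivity
  have hcut : ∀ g : ZMod p → Prop, (supp (ind fun v => g (t v))).card ≤ r * 3 ^ (r - 1) ∨
      5 * (r * 3 ^ (r - 1)) ≤ (supp (ind fun v => g (t v))).card := by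
    intro g
    refine cut hr hW fun v j he => ?_
    rw [eq_nb_of_p (h _ he)]
  obtain ⟨c, hc⟩ : ∃ c, r * 3 ^ (r - 1) < (supp (ind fun v => t v = c)).card := by
    by_contra hcon
    push Not at hcon
    have key : ∀ i : ℕ, (supp (ind fun v => (t v).val < i)).card ≤ r * 3 ^ (r - 1) := by
      intro i
      induction i with
      | zero =>
        have h1 : supp (ind fun v : Lp r => (t v).val < 0) = ∅ := by
          ext v
          rw [mem_supp_ind]
          simp
        rw [h1, Finset.card_empty]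
        exact Nat.zero_le _
      | succ i ih =>
        rcases hcut (fun a => a.val < i + 1) with h1 | h1
        · exact h1
        · exfalso
          have h2 : supp (ind fun v => (t v).val < i + 1) ⊆
              supp (ind fun v => (t v).val < i) ∪ supp (ind fun v => t v = (i : ZMod p)) := by
            intro v hv
            rw [mem_supp_ind] at hv
            rw [Finset.mem_union, mem_supp_ind, mem_supp_ind]
            rcases Nat.lt_or_eq_of_le (Nat.le_of_lt_succ hv) with h3 | h3
            · exact Or.inl h3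
            · right
              rw [← h3, ZMod.natCast_zmod_val]
          have h3 := (Finset.card_le_card h2).trans (Finset.card_union_le _ _)
          have h4 := hcon (i : ZMod p)
          omega
    have h1 := key p
    have h2 : supp (ind fun v => (t v).val < p) = Finset.univ := by
      ext v
      rw [mem_supp_ind]
      exact ⟨fun _ => Finset.mem_univ _, fun _ => ZMod.val_lt _⟩
    rw [h2, Finset.card_univ, hN] at h1
    omega
  refine ⟨c, ?_⟩
  have h1 : 5 * (r * 3 ^ (r - 1)) ≤ (supp (ind fun v => t v = c)).card := by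
    rcases hcut (fun a => a = c) with h2 | h2
    · omega
    · exact h2
  have h2 : supp (t - fun _ => c) ⊆ (supp (ind fun v => t v = c))ᶜ := by
    intro v hv
    rw [mem_supp] at hv
    rw [Finset.mem_compl, mem_supp_ind]
    intro h3
    exact hv (by rw [Pi.sub_apply, h3, sub_self])
  have h3 := Finset.card_le_card h2
  rw [Finset.card_compl, hN] at h3
  omega

/-- The system has no small cuts. -/
theorem incp_LE (hr : 4 ≤ r) : LE (r * 3 ^ (r - 1)) (3 ^ (r - 4)) (incp (r := r) p) := by
  have hL := inc_LE (r := r) hr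
  have hsupp : ∀ t : Lp r → ZMod p, supp (ind fun v => t v ≠ 0) = supp t := by
    intro t
    ext v
    rw [mem_supp_ind, mem_supp]
  constructor
  · intro t W h1 h2 h3
    rw [← hsupp t] at h1 ⊢
    refine hL.small _ W h1 h2 (Zr_ind fun v j he => ?_)
    rw [eq_nb_of_p (h3 _ he)]
  · intro t h1 h2
    rw [← hsupp t] at h1
    have h3 := hL.zero _ h1 fun e => Zr_ind (W := ∅) (fun v j _ => by
      rw [eq_nb_of_p (h2 _)]) e (Finset.notMem_empty _)
    funext v
    by_contra h4
    have h5 : v ∈ supp (ind fun v => t v ≠ 0) := mem_supp_ind.2 h4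
    rw [mem_supp, h3] at h5
    exact h5 rfl

/-- Local automorphisms agree with global ones. -/
theorem exists_global (hr : 4 ≤ r) {W : Finset (Ed r)} (hW : W.card ≤ 3 ^ (r - 4))
    {M : Ed r → ZMod p} (hM : Good (r * 3 ^ (r - 1)) (incp p) 0 W M) :
    ∃ M' : Ed r → ZMod p, (∀ t : Lp r → ZMod p,
      ∑ v, t v * (∑ e, incp p v e * M' e - (0 : Lp r → ZMod p) v) = 0) ∧
      ∀ w ∈ W, M' w = M w := by
  obtain ⟨M', h1, h2⟩ := extend_of (A := incp (r := r) p) (β := 0) ⊤ W M (by
    intro t _ ht
    obtain ⟨c, hc⟩ := near_const hr hW ht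
    have hconst : ∀ e, Zr (incp (r := r) p) (fun _ => c) e = 0 := by
      intro e
      obtain ⟨v, j, rfl⟩ := exists_ed e
      rw [Zr_incp, sub_self, mul_zero]
    have h3 := hM (t - fun _ => c) hc (by
      intro e he
      have h4 := ht e he
      have h5 : t = (t - fun _ => c) + fun _ => c := by
        rw [sub_add_cancel]
      rw [h5, Zr_add, hconst, add_zero] at h4
      exact h4)
    have h6 : ∑ v : Lp r, c * (∑ e, incp p v e * M e) = 0 := by
      have h7 := sum_Zr (incp (r := r) p) (fun _ => c) M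
      rw [h7]
      refine Finset.sum_eq_zero fun e _ => ?_
      rw [hconst, zero_mul]
    have h8 : ∑ v, t v * (∑ e, incp p v e * M e - (0 : Lp r → ZMod p) v) =
        ∑ v, (t - fun _ => c : Lp r → ZMod p) v * (∑ e, incp p v e * M e - (0 : Lp r → ZMod p) v) +
        ∑ v : Lp r, c * (∑ e, incp p v e * M e) := by
      rw [← Finset.sum_add_distrib]
      refine Finset.sum_congr rfl fun v _ => ?_
      rw [Pi.sub_apply, Pi.zero_apply]
      ring
    rw [h8, h3, h6, add_zero])
  exact ⟨M', fun t => h1 t trivial, h2⟩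

end Pool.Agent.K4H86.OR
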