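import Pool.Agent.K4H86.OR.FamP
import Pool.Agent.Y598.CG.Sum

/-!
# The family of the Cai-Fürer-Immerman graphs for the group of order `p`
-/

set_option autoImplicit false
set_option linter.unusedSectionVars false

namespace Pool.Agent.K4H86.OR

open Finset Pool.Agent.Y598.CG Pool.Agent.Y598.VT Pool.Agent.Y598.IM

variable {p : ℕ} [Fact p.Prime] {r : ℕ} [NeZero r]

/-- The vectors which vanish on `W`. -/
def NP (p : ℕ) (W : Finset (Ed r)) : AddSubgroup (Ed r → ZMod p) where
  carrier := {M | ∀ w ∈ W, M w = 0}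
  add_mem' := by
    intro M M' h h' w hw
    rw [Pi.add_apply, h w hw, h' w hw, add_zero]
  zero_mem' := fun w _ => rfl
  neg_mem' := by
    intro M h w hw
    rw [Pi.neg_apply, h w hw, neg_zero]

/-- The homogeneous local solutions. -/
def DP (p n : ℕ) [Fact p.Prime] (W : Finset (Ed r)) : AddSubgroup (Ed r → ZMod p) where
  carrier := {M | Good n (incp p) 0 W M}
  add_mem' := by
    intro M M' h h'
    have := Good.add h h'
    rwa [add_zero] at this
  zero_mem' := good_zero W
  neg_mem' := by
    intro M h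
    have := Good.neg h
    rwa [neg_zero] at this

/-- The shift of the vertices. -/
def shp (M : Ed r → ZMod p) (x : Vp p r) : Vp p r :=
  (x.1, (x.2.1 + sg p x.1 * M (ed x.1 1), x.2.2 + sg p x.1 * M (ed x.1 2)))

theorem shp_zero (x : Vp p r) : shp 0 x = x := by
  unfold shp
  simp only [Pi.zero_apply, mul_zero, add_zero]

theorem shp_add (M M' : Ed r → ZMod p) (x : Vp p r) : shp (M + M') x = shp M (shp M' x) := by
  unfold shp
  simp only [Pi.add_apply]
  refine Prod.ext rfl (Prod.ext ?_ ?_)
  · show x.2.1 + sg p x.1 * (M (ed x.1 1) + M' (ed x.1 1)) =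
      x.2.1 + sg p x.1 * M' (ed x.1 1) + sg p x.1 * M (ed x.1 1)
    ring
  · show x.2.2 + sg p x.1 * (M (ed x.1 2) + M' (ed x.1 2)) =
      x.2.2 + sg p x.1 * M' (ed x.1 2) + sg p x.1 * M (ed x.1 2)
    ring

/-- The shift as a permutation. -/
def shP (M : Ed r → ZMod p) : Vp p r ≃ Vp p r where
  toFun := shp M
  invFun := shp (-M)
  left_inv u := by rw [← shp_add, neg_add_cancel, shp_zero]
  right_inv u := by rw [← shp_add, add_neg_cancel, shp_zero]

/-- The level of a vertex. -/
noncomputable def lvP (x : Vp p r) : Finset (Ed r) := {ed x.1 1, ed x.1 2}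

/-- The error of a vector at a node. -/
theorem vl_shp {b b' : Lp r → ZMod p} {M : Ed r → ZMod p} (x : Vp p r) (j : Fin 3) :
    vl b' (shp M x) j = vl b x j + sg p x.1 * M (ed x.1 j) +
      if j = 0 then (b' x.1 - b x.1) - ∑ e, incp p x.1 e * M e else 0 := by
  rcases fin3 j with rfl | rfl | rfl
  · rw [if_pos rfl, incp_sum, Fin.sum_univ_three, vl_zero, vl_zero]
    show b' x.1 - (x.2.1 + sg p x.1 * M (ed x.1 1)) - (x.2.2 + sg p x.1 * M (ed x.1 2)) = _
    ring
  · rw [if_neg (by decide), add_zero]
    rfl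
  · rw [if_neg (by decide), add_zero]
    rfl

/-- Local solutions preserve the adjacency. -/
theorem shp_adj {n : ℕ} (hn : 2 ≤ n) {b b' : Lp r → ZMod p} {x y : Vp p r}
    {M : Ed r → ZMod p} (hM : Good n (incp p) (b' - b) (lvP x ∪ lvP y) M) :
    (gp b).Adj x y ↔ (gp b').Adj (shp M x) (shp M y) := by
  rw [gp_adj, gp_adj]
  refine exists_congr fun j => and_congr_right fun hj => ?_
  have hj' : nb x.1 j = y.1 := hj
  have hed : ed y.1 j = ed x.1 j := by rw [← hj', ed_nb]
  have hsg : sg p y.1 = -sg p x.1 := by rw [← hj', sg_nb]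
  rw [vl_shp (b := b) x, vl_shp (b := b) y, hed, hsg]
  rcases fin3 j with rfl | rfl | rfl
  · rw [if_pos rfl, if_pos rfl]
    have h1 := hM (Pi.single x.1 1 + Pi.single y.1 1) (by
      refine (supp_add _ _).trans ?_
      have e1 := supp_single (F := ZMod p) x.1 1
      have e2 := supp_single (F := ZMod p) y.1 1
      omega) (by
      intro e he
      rw [Zr_add, Zr_single, Zr_single]
      rw [Finset.mem_union] at he
      push Not at he
      obtain ⟨hex, hey⟩ := he
      have a1 : e ≠ ed x.1 1 := fun h => hex (by rw [h]; exact Finset.mem_insert_self _ _)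
      have a2 : e ≠ ed x.1 2 := fun h => hex (by
        rw [h]
        exact Finset.mem_insert_of_mem (Finset.mem_singleton_self _))
      have a3 : e ≠ ed y.1 1 := fun h => hey (by rw [h]; exact Finset.mem_insert_self _ _)
      have a4 : e ≠ ed y.1 2 := fun h => hey (by
        rw [h]
        exact Finset.mem_insert_of_mem (Finset.mem_singleton_self _))
      obtain ⟨q, l⟩ := e
      unfold incp
      rcases fin3 l with rfl | rfl | rfl
      · show (if ed x.1 0 = (q, 0) then sg p x.1 else 0) +
          (if ed y.1 0 = (q, 0) then sg p y.1 else 0) = 0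
        rw [hed, hsg]
        split_ifs
        · exact add_neg_cancel _
        · exact add_zero _
      · rw [if_neg (fun h => a1 h.symm), if_neg (fun h => a3 h.symm), add_zero]
      · rw [if_neg (fun h => a2 h.symm), if_neg (fun h => a4 h.symm), add_zero])
    have h2 : ∑ v, (Pi.single x.1 (1 : ZMod p) + Pi.single y.1 (1 : ZMod p) : Lp r → ZMod p) v *
        (∑ e, incp p v e * M e - (b' - b) v) =
        (∑ e, incp p x.1 e * M e - (b' x.1 - b x.1)) +
        (∑ e, incp p y.1 e * M e - (b' y.1 - b y.1)) := by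
      simp only [Pi.add_apply, add_mul]
      rw [Finset.sum_add_distrib]
      congr 1
      · rw [Finset.sum_eq_single x.1]
        · rw [Pi.single_eq_same, one_mul]
          rfl
        · intro w _ hw
          rw [Pi.single_eq_of_ne hw, zero_mul]
        · intro h
          exact absurd (Finset.mem_univ _) h
      · rw [Finset.sum_eq_single y.1]
        · rw [Pi.single_eq_same, one_mul]
          rfl
        · intro w _ hw
          rw [Pi.single_eq_of_ne hw, zero_mul]
        · intro h
          exact absurd (Finset.mem_univ _) h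
    rw [h2] at h1
    refine eq_iff_eq_of_sub_eq_sub ?_
    linear_combination h1
  · rw [if_neg (by decide), if_neg (by decide)]
    refine eq_iff_eq_of_sub_eq_sub ?_
    ring
  · rw [if_neg (by decide), if_neg (by decide)]
    refine eq_iff_eq_of_sub_eq_sub ?_
    ring

/-- The family of the graphs. -/
noncomputable def pFam (hr : 4 ≤ r) (hn : 2 ≤ r * 3 ^ (r - 1)) (bb : Bool → Lp r → ZMod p)
    (hinj : Function.Injective fun b => (gp (bb b)).Adj) :
    Fam (Ed r → ZMod p) (Finset (Ed r)) (Vp p r) Bool where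
  N := NP p
  D := DP p (r * 3 ^ (r - 1))
  Sol b b' W := {M | Good (r * 3 ^ (r - 1)) (incp p) (bb b' - bb b) W M}
  size W := W.card
  K := 3 ^ (r - 4)
  N_anti W W' h M hM w hw := hM w (h hw)
  N_sup W W' M hM w hw := by
    rcases Finset.mem_union.1 hw with h | h
    · exact hM.1 w h
    · exact hM.2 w h
  N_bot := by
    rw [eq_top_iff]
    intro M _ w hw
    exact absurd hw (Finset.notMem_empty w)
  Sol_anti b b' W W' h M hM := Good.mono h hM
  sol_D b W M := by
    show Good _ (incp p) (bb b - bb b) W M ↔ Good _ (incp p) 0 W M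
    rw [sub_self]
  neg_mem b b' W M hM := by
    have := Good.neg (show Good _ (incp p) (bb b' - bb b) W M from hM)
    rwa [neg_sub] at this
  add_mem b b' b'' W M M' hM hM' := by
    have := Good.add (show Good _ (incp p) (bb b' - bb b) W M from hM)
      (show Good _ (incp p) (bb b'' - bb b') W M' from hM')
    have h1 : bb b' - bb b + (bb b'' - bb b') = bb b'' - bb b := by abel
    rwa [h1] at this
  size_bot := Finset.card_empty
  size_mono W W' h := Finset.card_le_card h
  size_sup W W' := Finset.card_union_le _ _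
  bot_sol b b' := ⟨0, good_empty (incp_LE hr) _ 0⟩
  extend b b' W W' hWW hW' M hM := by
    obtain ⟨M', hM', hag⟩ := Good.extend (incp_LE hr) hW' hM
    refine ⟨M', hM', fun w hw => ?_⟩
    rw [Pi.sub_apply, hag w hw, sub_self]
  act := shP
  act_zero u := shp_zero u
  act_add M M' u := shp_add M M' u
  lv := lvP
  lv_act M u := rfl
  fix M x hM := by
    show (x.1, (x.2.1 + sg p x.1 * M (ed x.1 1), x.2.2 + sg p x.1 * M (ed x.1 2))) = x
    rw [hM _ (Finset.mem_insert_self _ _),
      hM _ (Finset.mem_insert_of_mem (Finset.mem_singleton_self _)), mul_zero, add_zero, add_zero]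
  faithful M x hM := by
    have h1 : x.2.1 + sg p x.1 * M (ed x.1 1) = x.2.1 := congrArg (fun q : Vp p r => q.2.1) hM
    have h2 : x.2.2 + sg p x.1 * M (ed x.1 2) = x.2.2 := congrArg (fun q : Vp p r => q.2.2) hM
    have h3 : ∀ a : ZMod p, sg p x.1 * a = 0 → a = 0 := by
      intro a ha
      have h4 := congrArg (fun c => sg p x.1 * c) ha
      simp only [mul_zero, ← mul_assoc, sg_sq, one_mul] at h4
      exact h4
    intro w hw
    have hw' : w ∈ ({ed x.1 1, ed x.1 2} : Finset (Ed r)) := hw
    rw [Finset.mem_insert, Finset.mem_singleton] at hw'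
    rcases hw' with rfl | rfl
    · exact h3 _ (add_eq_left.1 h1)
    · exact h3 _ (add_eq_left.1 h2)
  c := 2
  size_lv x := Finset.card_le_two
  G b := (gp (bb b)).Adj
  G_inj := hinj
  adj b b' x y M hM := shp_adj hn hM

theorem pFam_glob (hr : 4 ≤ r) (hn : 2 ≤ r * 3 ^ (r - 1)) (bb : Bool → Lp r → ZMod p)
    (hinj : Function.Injective fun b => (gp (bb b)).Adj) :
    Globalises (pFam hr hn bb hinj) := by
  intro W M hW hM
  obtain ⟨M', h1, h2⟩ := exists_global hr (W := W) hW (M := M) hM
  refine ⟨M', fun W' t _ _ => h1 t, fun w hw => ?_⟩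
  rw [Pi.sub_apply, h2 w hw, sub_self]

end Pool.Agent.K4H86.OR
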