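import Pool.Agent.K4H86.OR.Logic
import Pool.Agent.Y598.IM.Fam

/-!
# Gluing local isomorphisms of structures with few symmetries
-/

set_option autoImplicit false
set_option linter.unusedSectionVars false

namespace Pool.Agent.K4H86.OR

open Pool.Agent.Y598.IM Relation

variable {X L V B : Type} [AddCommGroup X] [SemilatticeSup L] [OrderBot L] (F : Fam X L V B)

/-- An action on the set `T` with levels. -/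
structure TAct (T : Type) where
  A : X → T → T
  ℓ : T → L
  zero : ∀ t, A 0 t = t
  add : ∀ M M' t, A (M + M') t = A M (A M' t)
  lv : ∀ M t, ℓ (A M t) = ℓ t
  fix : ∀ M t, M ∈ F.N (ℓ t) → A M t = t

variable {F}

namespace TAct

variable {T : Type} (𝒯 : TAct F T)

theorem neg_act (M : X) (t : T) : 𝒯.A (-M) (𝒯.A M t) = t := by
  rw [← 𝒯.add, neg_add_cancel, 𝒯.zero]

theorem act_neg (M : X) (t : T) : 𝒯.A M (𝒯.A (-M) t) = t := by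
  rw [← 𝒯.add, add_neg_cancel, 𝒯.zero]

theorem congr {M M' : X} {t : T} (h : M' - M ∈ F.N (𝒯.ℓ t)) : 𝒯.A M' t = 𝒯.A M t := by
  have h1 : M' = M + (M' - M) := by abel
  rw [h1, 𝒯.add, 𝒯.fix _ t h]

theorem congr' {M M' : X} {W : L} {t : T} (h : M' - M ∈ F.N W) (ht : 𝒯.ℓ t ≤ W) :
    𝒯.A M' t = 𝒯.A M t := 𝒯.congr (F.N_anti _ _ ht h)

/-- The level of a tuple. -/
def lvS {n : ℕ} (a : Fin n → T) : L := Finset.univ.sup fun j => 𝒯.ℓ (a j)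

theorem le_lvS {n : ℕ} (a : Fin n → T) (j : Fin n) : 𝒯.ℓ (a j) ≤ 𝒯.lvS a :=
  Finset.le_sup (f := fun j => 𝒯.ℓ (a j)) (Finset.mem_univ j)

theorem lvS_act {n : ℕ} (M : X) (a : Fin n → T) : 𝒯.lvS (fun j => 𝒯.A M (a j)) = 𝒯.lvS a := by
  unfold lvS
  simp only [𝒯.lv]

end TAct

/-- The predicates are preserved by the local isomorphisms which agree with `M₁` on `W₁`. -/
structure Inv {T : Type} (𝒯 : TAct F T) {τ : Voc} (b b' : B) (W₁ : L) (M₁ : X)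
    (δ δ' : T → Prop) (ε ε' : T → T → Prop)
    (ρ ρ' : ∀ i : τ.Sym, (Fin (τ.ar i) → T) → Prop) : Prop where
  hδ : ∀ M t, M - M₁ ∈ F.N W₁ → M ∈ F.Sol b b' (W₁ ⊔ 𝒯.ℓ t) → (δ t ↔ δ' (𝒯.A M t))
  hε : ∀ M t u, M - M₁ ∈ F.N W₁ → M ∈ F.Sol b b' (W₁ ⊔ (𝒯.ℓ t ⊔ 𝒯.ℓ u)) →
    (ε t u ↔ ε' (𝒯.A M t) (𝒯.A M u))
  hρ : ∀ M i a, M - M₁ ∈ F.N W₁ → M ∈ F.Sol b b' (W₁ ⊔ 𝒯.lvS a) →
    (ρ i a ↔ ρ' i fun j => 𝒯.A M (a j))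

namespace Inv

variable {T : Type} {𝒯 : TAct F T} {τ : Voc} {b b' : B} {W₁ : L} {M₁ : X}
  {δ δ' : T → Prop} {ε ε' : T → T → Prop} {ρ ρ' : ∀ i : τ.Sym, (Fin (τ.ar i) → T) → Prop}

theorem symm (h : Inv 𝒯 b b' W₁ M₁ δ δ' ε ε' ρ ρ') :
    Inv 𝒯 b' b W₁ (-M₁) δ' δ ε' ε ρ' ρ where
  hδ M t hN hM := by
    have h1 := h.hδ (-M) (𝒯.A M t) (by
      have : -M - M₁ = -(M - -M₁) := by abel
      rw [this]
      exact neg_mem hN) (by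
      rw [𝒯.lv]
      exact F.neg_mem _ _ _ _ hM)
    rw [𝒯.neg_act] at h1
    exact h1.symm
  hε M t u hN hM := by
    have h1 := h.hε (-M) (𝒯.A M t) (𝒯.A M u) (by
      have : -M - M₁ = -(M - -M₁) := by abel
      rw [this]
      exact neg_mem hN) (by
      rw [𝒯.lv, 𝒯.lv]
      exact F.neg_mem _ _ _ _ hM)
    rw [𝒯.neg_act, 𝒯.neg_act] at h1
    exact h1.symm
  hρ M i a hN hM := by
    have h1 := h.hρ (-M) i (fun j => 𝒯.A M (a j)) (by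
      have : -M - M₁ = -(M - -M₁) := by abel
      rw [this]
      exact neg_mem hN) (by
      rw [𝒯.lvS_act]
      exact F.neg_mem _ _ _ _ hM)
    simp only [𝒯.neg_act] at h1
    exact h1.symm

/-- The generated equivalence relations are preserved. -/
theorem eqvGen (h : Inv 𝒯 b b' W₁ M₁ δ δ' ε ε' ρ ρ') {c₁ : ℕ}
    (hc : ∀ t, F.size (𝒯.ℓ t) ≤ c₁) (hK : F.size W₁ + 3 * c₁ ≤ F.K) :
    ∀ x y : {t : T // δ t}, EqvGen (fun a b : {t : T // δ t} => ε a.1 b.1) x y →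
    ∀ M, M - M₁ ∈ F.N W₁ → M ∈ F.Sol b b' (W₁ ⊔ (𝒯.ℓ x.1 ⊔ 𝒯.ℓ y.1)) →
    ∀ (hx : δ' (𝒯.A M x.1)) (hy : δ' (𝒯.A M y.1)),
      EqvGen (fun a b : {t : T // δ' t} => ε' a.1 b.1) ⟨𝒯.A M x.1, hx⟩ ⟨𝒯.A M y.1, hy⟩ := by
  intro x y hxy
  induction hxy with
  | rel x y hxy =>
    intro M hN hM hx hy
    exact EqvGen.rel _ _ ((h.hε M x.1 y.1 hN hM).1 hxy)
  | refl x =>
    intro M hN hM hx hy
    exact EqvGen.refl _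
  | symm x y hxy ih =>
    intro M hN hM hx hy
    rw [sup_comm (𝒯.ℓ y.1)] at hM
    exact EqvGen.symm _ _ (ih M hN hM hy hx)
  | trans x y z hxy hyz ih1 ih2 =>
    intro M hN hM hx hz
    obtain ⟨M', hM', hN'⟩ := F.extend b b' (W₁ ⊔ (𝒯.ℓ x.1 ⊔ 𝒯.ℓ z.1))
      (W₁ ⊔ (𝒯.ℓ x.1 ⊔ 𝒯.ℓ z.1) ⊔ 𝒯.ℓ y.1) le_sup_left (by
        have h1 := F.size_sup (W₁ ⊔ (𝒯.ℓ x.1 ⊔ 𝒯.ℓ z.1)) (𝒯.ℓ y.1)
        have h2 := F.size_sup W₁ (𝒯.ℓ x.1 ⊔ 𝒯.ℓ z.1)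
        have h3 := F.size_sup (𝒯.ℓ x.1) (𝒯.ℓ z.1)
        have h4 := hc x.1
        have h5 := hc y.1
        have h6 := hc z.1
        omega) M hM
    have hW : W₁ ≤ W₁ ⊔ (𝒯.ℓ x.1 ⊔ 𝒯.ℓ z.1) := le_sup_left
    have hxl : 𝒯.ℓ x.1 ≤ W₁ ⊔ (𝒯.ℓ x.1 ⊔ 𝒯.ℓ z.1) := le_sup_left.trans le_sup_right
    have hzl : 𝒯.ℓ z.1 ≤ W₁ ⊔ (𝒯.ℓ x.1 ⊔ 𝒯.ℓ z.1) := le_sup_right.trans le_sup_right
    have hN1 : M' - M₁ ∈ F.N W₁ := by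
      have : M' - M₁ = (M' - M) + (M - M₁) := by abel
      rw [this]
      exact add_mem (F.N_anti _ _ hW hN') hN
    have ex : 𝒯.A M' x.1 = 𝒯.A M x.1 := 𝒯.congr' hN' hxl
    have ez : 𝒯.A M' z.1 = 𝒯.A M z.1 := 𝒯.congr' hN' hzl
    have hy : δ' (𝒯.A M' y.1) := (h.hδ M' y.1 hN1 (F.Sol_anti _ _ _ _ (sup_le
      (hW.trans le_sup_left) le_sup_right) hM')).1 y.2
    have h1 := ih1 M' hN1 (F.Sol_anti _ _ _ _ (sup_le (hW.trans le_sup_left)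
      (sup_le (hxl.trans le_sup_left) le_sup_right)) hM') (by rwa [ex]) hy
    have h2 := ih2 M' hN1 (F.Sol_anti _ _ _ _ (sup_le (hW.trans le_sup_left)
      (sup_le le_sup_right (hzl.trans le_sup_left))) hM') hy (by rwa [ez])
    have h3 := EqvGen.trans _ _ _ h1 h2
    have e1 : (⟨𝒯.A M' x.1, by rwa [ex]⟩ : {t : T // δ' t}) = ⟨𝒯.A M x.1, hx⟩ :=
      Subtype.ext ex
    have e2 : (⟨𝒯.A M' z.1, by rwa [ez]⟩ : {t : T // δ' t}) = ⟨𝒯.A M z.1, hz⟩ :=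
      Subtype.ext ez
    rw [e1, e2] at h3
    exact h3

/-- Equal classes have equal images. -/
theorem mk_eq (h : Inv 𝒯 b b' W₁ M₁ δ δ' ε ε' ρ ρ') {c₁ : ℕ}
    (hc : ∀ t, F.size (𝒯.ℓ t) ≤ c₁) (hK : F.size W₁ + 3 * c₁ ≤ F.K)
    {x y : T} (hx : δ x) (hy : δ y)
    (hxy : (Quot.mk _ ⟨x, hx⟩ : OutT δ ε) = Quot.mk _ ⟨y, hy⟩) {M : X}
    (hN : M - M₁ ∈ F.N W₁) (hM : M ∈ F.Sol b b' (W₁ ⊔ (𝒯.ℓ x ⊔ 𝒯.ℓ y)))
    (hx' : δ' (𝒯.A M x)) (hy' : δ' (𝒯.A M y)) :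
    (Quot.mk _ ⟨𝒯.A M x, hx'⟩ : OutT δ' ε') = Quot.mk _ ⟨𝒯.A M y, hy'⟩ :=
  Quot.eqvGen_sound (h.eqvGen hc hK ⟨x, hx⟩ ⟨y, hy⟩ (Quot.eqvGen_exact hxy) M hN hM hx' hy')

end Inv

end Pool.Agent.K4H86.OR
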