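import Pool.Agent.K4H86.OR.Glue

/-!
# Gluing local isomorphisms of structures with few symmetries: the isomorphism
-/

set_option autoImplicit false
set_option linter.unusedSectionVars false

namespace Pool.Agent.K4H86.OR

open Pool.Agent.Y598.IM Relation

variable {X L V B : Type} [AddCommGroup X] [SemilatticeSup L] [OrderBot L] {F : Fam X L V B}

variable {T : Type} {𝒯 : TAct F T} {τ : Voc} {b b' : B} {W₁ W₀ : L} {M₁ M₀ : X}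
  {δ δ' : T → Prop} {ε ε' : T → T → Prop} {ρ ρ' : ∀ i : τ.Sym, (Fin (τ.ar i) → T) → Prop}

/-- The class of an element. -/
def cls {T : Type} (δ : T → Prop) (ε : T → T → Prop) (t : T) (h : δ t) : OutT δ ε :=
  Quot.mk _ ⟨t, h⟩

theorem cls_congr {T : Type} {δ : T → Prop} {ε : T → T → Prop} {t u : T} (h : δ t) (h' : δ u)
    (htu : t = u) : cls δ ε t h = cls δ ε u h' := by
  subst htu
  rfl

/-- Every local automorphism agrees with a global one. -/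
def Globalises (F : Fam X L V B) : Prop :=
  ∀ W M, F.size W ≤ F.K → M ∈ F.D W → ∃ α, (∀ W', α ∈ F.D W') ∧ α - M ∈ F.N W

theorem glue_aux (h : Inv 𝒯 b b' W₁ M₁ δ δ' ε ε' ρ ρ') (hW : W₁ ≤ W₀)
    (hM₀ : M₀ ∈ F.Sol b b' W₀) (h01 : M₀ - M₁ ∈ F.N W₁) (hglob : Globalises F) {c₁ c₂ : ℕ}
    (hc : ∀ t, F.size (𝒯.ℓ t) ≤ c₁)
    (hc₂ : ∀ (i : τ.Sym) (a : Fin (τ.ar i) → T), F.size (𝒯.lvS a) ≤ c₂)
    (hK : F.size W₀ + 3 * c₁ + c₂ ≤ F.K)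
    (htriv : ∀ α, (∀ W, α ∈ F.D W) → α ∈ F.N W₀ → ∀ (t : T) (ht : δ t),
      ∃ ht' : δ (𝒯.A α t), cls δ ε (𝒯.A α t) ht' = cls δ ε t ht) :
    ∃ e : OutT δ ε ≃ OutT δ' ε', IsIso (outStr δ ε ρ) (outStr δ' ε' ρ') e := by
  have hK1 : F.size W₁ + 3 * c₁ ≤ F.K := by
    have := F.size_mono _ _ hW
    omega
  have hN : ∀ M, M - M₀ ∈ F.N W₀ → M - M₁ ∈ F.N W₁ := by
    intro M hM
    have h1 : M - M₁ = (M - M₀) + (M₀ - M₁) := by abel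
    rw [h1]
    exact add_mem (F.N_anti _ _ hW hM) h01
  have hδ' : ∀ M t, M - M₀ ∈ F.N W₀ → M ∈ F.Sol b b' (W₀ ⊔ 𝒯.ℓ t) → δ t → δ' (𝒯.A M t) :=
    fun M t hMN hM ht => (h.hδ M t (hN M hMN) (F.Sol_anti _ _ _ _
      (sup_le_sup_right hW _) hM)).1 ht
  have hindep : ∀ (t : T) (ht : δ t) (M M' : X) (hM : M ∈ F.Sol b b' (W₀ ⊔ 𝒯.ℓ t))
      (hM' : M' ∈ F.Sol b b' (W₀ ⊔ 𝒯.ℓ t)) (hMN : M - M₀ ∈ F.N W₀) (hMN' : M' - M₀ ∈ F.N W₀),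
      cls δ' ε' (𝒯.A M t) (hδ' M t hMN hM ht) = cls δ' ε' (𝒯.A M' t) (hδ' M' t hMN' hM' ht) := by
    intro t ht M M' hM hM' hMN hMN'
    have hD : M' - M ∈ F.D (W₀ ⊔ 𝒯.ℓ t) := by
      have h1 := F.add_mem b' b b' _ _ _ (F.neg_mem _ _ _ _ hM) hM'
      rw [F.sol_D] at h1
      have h2 : M' - M = -M + M' := by abel
      rwa [h2]
    obtain ⟨α, hα, hαN⟩ := hglob (W₀ ⊔ 𝒯.ℓ t) (M' - M) (by
      have h1 := F.size_sup W₀ (𝒯.ℓ t)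
      have h2 := hc t
      omega) hD
    have hα0 : α ∈ F.N W₀ := by
      have h1 : α = (α - (M' - M)) + ((M' - M₀) - (M - M₀)) := by abel
      rw [h1]
      exact add_mem (F.N_anti _ _ le_sup_left hαN) (sub_mem hMN' hMN)
    obtain ⟨hαt, hcl⟩ := htriv α hα hα0 t ht
    have hM1 : M ∈ F.Sol b b' (W₁ ⊔ 𝒯.ℓ t) := F.Sol_anti _ _ _ _ (sup_le_sup_right hW _) hM
    have h3 := h.mk_eq hc hK1 hαt ht hcl (hN M hMN) (by
      rw [𝒯.lv, sup_idem]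
      exact hM1) ((h.hδ M _ (hN M hMN) (by rw [𝒯.lv]; exact hM1)).1 hαt) (hδ' M t hMN hM ht)
    refine Eq.trans h3.symm (cls_congr _ _ ?_)
    rw [← 𝒯.add]
    refine (𝒯.congr ?_).symm
    have h4 : M' - (M + α) = -(α - (M' - M)) := by abel
    rw [h4]
    exact neg_mem (F.N_anti _ _ le_sup_right hαN)
  have hex : ∀ W : L, F.size W ≤ 2 * c₁ + c₂ →
      ∃ M, M ∈ F.Sol b b' (W₀ ⊔ W) ∧ M - M₀ ∈ F.N W₀ := by
    intro W hWs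
    obtain ⟨M, hM, hMN⟩ := F.extend b b' W₀ (W₀ ⊔ W) le_sup_left (by
      have := F.size_sup W₀ W
      omega) M₀ hM₀
    exact ⟨M, hM, hMN⟩
  have hex1 : ∀ t : T, ∃ M, M ∈ F.Sol b b' (W₀ ⊔ 𝒯.ℓ t) ∧ M - M₀ ∈ F.N W₀ := fun t =>
    hex _ (by have := hc t; omega)
  choose Mf hMf hMfN using hex1
  have hex2 : ∀ t u : T, ∃ M, M ∈ F.Sol b b' (W₀ ⊔ (𝒯.ℓ t ⊔ 𝒯.ℓ u)) ∧ M - M₀ ∈ F.N W₀ :=
    fun t u => hex _ (by
      have h1 := hc t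
      have h2 := hc u
      have h3 := F.size_sup (𝒯.ℓ t) (𝒯.ℓ u)
      omega)
  let f : OutT δ ε → OutT δ' ε' := Quot.lift
    (fun x => cls δ' ε' (𝒯.A (Mf x.1) x.1) (hδ' _ _ (hMfN _) (hMf _) x.2)) (by
      intro x y hxy
      obtain ⟨M, hM, hMN⟩ := hex2 x.1 y.1
      have h1 : M ∈ F.Sol b b' (W₀ ⊔ 𝒯.ℓ x.1) :=
        F.Sol_anti _ _ _ _ (sup_le_sup_left le_sup_left _) hM
      have h2 : M ∈ F.Sol b b' (W₀ ⊔ 𝒯.ℓ y.1) :=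
        F.Sol_anti _ _ _ _ (sup_le_sup_left le_sup_right _) hM
      rw [hindep x.1 x.2 (Mf x.1) M (hMf _) h1 (hMfN _) hMN,
        hindep y.1 y.2 (Mf y.1) M (hMf _) h2 (hMfN _) hMN]
      exact Quot.sound ((h.hε M x.1 y.1 (hN M hMN) (F.Sol_anti _ _ _ _
        (sup_le_sup_right hW _) hM)).1 hxy))
  have hf : ∀ (t : T) (ht : δ t) (M : X) (hM : M ∈ F.Sol b b' (W₀ ⊔ 𝒯.ℓ t))
      (hMN : M - M₀ ∈ F.N W₀), f (cls δ ε t ht) = cls δ' ε' (𝒯.A M t) (hδ' M t hMN hM ht) :=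
    fun t ht M hM hMN => hindep t ht (Mf t) M (hMf _) hM (hMfN _) hMN
  have hinj : Function.Injective f := by
    intro q q' hqq
    obtain ⟨⟨t, ht⟩, rfl⟩ := Quot.exists_rep q
    obtain ⟨⟨u, hu⟩, rfl⟩ := Quot.exists_rep q'
    obtain ⟨M, hM, hMN⟩ := hex2 t u
    have h1 : M ∈ F.Sol b b' (W₀ ⊔ 𝒯.ℓ t) :=
      F.Sol_anti _ _ _ _ (sup_le_sup_left le_sup_left _) hM
    have h2 : M ∈ F.Sol b b' (W₀ ⊔ 𝒯.ℓ u) :=
      F.Sol_anti _ _ _ _ (sup_le_sup_left le_sup_right _) hM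
    have h3 : f (cls δ ε t ht) = f (cls δ ε u hu) := hqq
    rw [hf t ht M h1 hMN, hf u hu M h2 hMN] at h3
    have h4 := h.symm.mk_eq hc hK1 (hδ' M t hMN h1 ht) (hδ' M u hMN h2 hu) h3 (M := -M) (by
      have h5 : -M - -M₁ = -(M - M₁) := by abel
      rw [h5]
      exact neg_mem (hN M hMN)) (by
      rw [𝒯.lv, 𝒯.lv]
      exact F.neg_mem _ _ _ _ (F.Sol_anti _ _ _ _ (sup_le_sup_right hW _) hM))
      (by rwa [𝒯.neg_act]) (by rwa [𝒯.neg_act])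
    exact (cls_congr ht _ (𝒯.neg_act M t).symm).trans
      (Eq.trans h4 (cls_congr _ hu (𝒯.neg_act M u)))
  have hback : ∀ (u : T) (hu : δ' u) (M : X) (hM : M ∈ F.Sol b b' (W₀ ⊔ 𝒯.ℓ u))
      (hMN : M - M₀ ∈ F.N W₀), ∃ ht : δ (𝒯.A (-M) u),
        f (cls δ ε (𝒯.A (-M) u) ht) = cls δ' ε' u hu := by
    intro u hu M hM hMN
    have hM2 : M ∈ F.Sol b b' (W₀ ⊔ 𝒯.ℓ (𝒯.A (-M) u)) := by rwa [𝒯.lv]
    have ht : δ (𝒯.A (-M) u) := (h.hδ M _ (hN M hMN) (F.Sol_anti _ _ _ _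
      (sup_le_sup_right hW _) hM2)).2 (by rwa [𝒯.act_neg])
    refine ⟨ht, ?_⟩
    rw [hf _ ht M hM2 hMN]
    exact cls_congr _ _ (𝒯.act_neg M u)
  have hsurj : Function.Surjective f := by
    intro q
    obtain ⟨⟨u, hu⟩, rfl⟩ := Quot.exists_rep q
    obtain ⟨ht, h1⟩ := hback u hu (Mf u) (hMf u) (hMfN u)
    exact ⟨cls δ ε (𝒯.A (-Mf u) u) ht, h1⟩
  refine ⟨Equiv.ofBijective f ⟨hinj, hsurj⟩, ?_⟩
  intro i q
  show (∃ a : Fin (τ.ar i) → {t : T // δ t}, (∀ j, Quot.mk _ (a j) = q j) ∧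
    ρ i fun j => (a j).1) ↔ ∃ a : Fin (τ.ar i) → {t : T // δ' t},
      (∀ j, Quot.mk _ (a j) = f (q j)) ∧ ρ' i fun j => (a j).1
  constructor
  · rintro ⟨a, ha, hρ⟩
    obtain ⟨M, hM, hMN⟩ := hex (𝒯.lvS fun j => (a j).1) (by
      have := hc₂ i fun j => (a j).1
      omega)
    have h1 : ∀ j, M ∈ F.Sol b b' (W₀ ⊔ 𝒯.ℓ (a j).1) := fun j =>
      F.Sol_anti _ _ _ _ (sup_le_sup_left (𝒯.le_lvS (fun j => (a j).1) j) _) hM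
    refine ⟨fun j => ⟨𝒯.A M (a j).1, hδ' M _ hMN (h1 j) (a j).2⟩, fun j => ?_, ?_⟩
    · rw [← ha j]
      exact (hf (a j).1 (a j).2 M (h1 j) hMN).symm
    · exact (h.hρ M i _ (hN M hMN) (F.Sol_anti _ _ _ _ (sup_le_sup_right hW _) hM)).1 hρ
  · rintro ⟨a, ha, hρ⟩
    obtain ⟨M, hM, hMN⟩ := hex (𝒯.lvS fun j => (a j).1) (by
      have := hc₂ i fun j => (a j).1
      omega)
    have h1 : ∀ j, M ∈ F.Sol b b' (W₀ ⊔ 𝒯.ℓ (a j).1) := fun j =>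
      F.Sol_anti _ _ _ _ (sup_le_sup_left (𝒯.le_lvS (fun j => (a j).1) j) _) hM
    choose ht h2 using fun j => hback (a j).1 (a j).2 M (h1 j) hMN
    refine ⟨fun j => ⟨𝒯.A (-M) (a j).1, ht j⟩, fun j => ?_, ?_⟩
    · exact hinj ((h2 j).trans (ha j))
    · refine (h.hρ M i _ (hN M hMN) ?_).2 ?_
      · rw [𝒯.lvS_act]
        exact F.Sol_anti _ _ _ _ (sup_le_sup_right hW _) hM
      · simp only [𝒯.act_neg]
        exact hρ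

end Pool.Agent.K4H86.OR
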