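import Mathlib

/-!
# Infinitary counting logic with generalised quantifiers for structures with few symmetries
-/

set_option autoImplicit false

namespace Pool.Agent.K4H86.OR

/-- A relational vocabulary: the relation symbols and their arities. -/
structure Voc where
  Sym : Type
  ar : Sym → ℕ

/-- A structure with universe `A` over the vocabulary `τ`. -/
def Str (τ : Voc) (A : Type) : Type := ∀ i : τ.Sym, (Fin (τ.ar i) → A) → Prop

/-- The bijection `e` is an isomorphism from `𝒜` to `ℬ`. -/
def IsIso {τ : Voc} {A B : Type} (𝒜 : Str τ A) (ℬ : Str τ B) (e : A ≃ B) : Prop :=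
  ∀ i x, 𝒜 i x ↔ ℬ i fun j => e (x j)

/-- The `p`-rank of the automorphism group of the structure is at most `s`: every elementary abelian
`p`-group of automorphisms has at most `p ^ s` elements. For `s = 0` this says that there are no
automorphisms of order `p`. -/
def RankLE (p s : ℕ) {τ : Voc} {A : Type} (𝒜 : Str τ A) : Prop :=
  ∀ H : Subgroup (Equiv.Perm A), (∀ e ∈ H, IsIso 𝒜 𝒜 e) → (∀ e ∈ H, e ^ p = 1) →
    (∀ e ∈ H, ∀ e' ∈ H, e * e' = e' * e) → Nat.card H ≤ p ^ s

/-- A class of structures, closed under isomorphisms, such that the automorphism groups of the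
finite structures with `n` elements in the class have `p`-rank at most `f n`. -/
structure Cls (p : ℕ) (f : ℕ → ℕ) (τ : Voc) where
  Mem : ∀ A : Type, Str τ A → Prop
  iso : ∀ (A B : Type) (𝒜 : Str τ A) (ℬ : Str τ B) (e : A ≃ B), IsIso 𝒜 ℬ e →
    Mem A 𝒜 → Mem B ℬ
  rank : ∀ (A : Type) [Finite A] (𝒜 : Str τ A), Mem A 𝒜 → RankLE p (f (Nat.card A)) 𝒜

/-- A class of families of square matrices over the field `K`, closed under simultaneous
similarity. -/
structure MatCls (K : Type) [Field K] (ι : Type) where
  Mem : ∀ (I : Type) [Fintype I], (ι → Matrix I I K) → Prop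
  sim : ∀ (I J : Type) [Fintype I] [Fintype J] [DecidableEq I] [DecidableEq J]
    (A : ι → Matrix I I K) (B : ι → Matrix J J K) (P : Matrix I J K) (Q : Matrix J I K),
    P * Q = 1 → Q * P = 1 → (∀ i, A i * P = P * B i) → Mem I A → Mem J B

/-- The formulas with the variables `0, …, k - 1` of the logic: atomic formulas, negations,
infinitary conjunctions, counting quantifiers, the quantifiers for all classes of families of
matrices closed under simultaneous similarity over all algebraically closed fields whose
characteristic is not `p`, and the quantifiers for all classes of structures which are closed under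
isomorphisms and whose finite members with `n` elements have automorphism groups of `p`-rank at most
`f n`. -/
inductive Fml (k p : ℕ) (f : ℕ → ℕ) : Type 1
  | eq (i j : Fin k) : Fml k p f
  | adj (i j : Fin k) : Fml k p f
  | mark (i : Fin k) : Fml k p f
  | not (φ : Fml k p f) : Fml k p f
  | all (ι : Type) (φ : ι → Fml k p f) : Fml k p f
  | count (n : ℕ) (i : Fin k) (φ : Fml k p f) : Fml k p f
  | lin (K : Type) [Field K] [IsAlgClosed K] (hK : (p : K) ≠ 0) (ι : Type) (C : MatCls K ι)
      (m : ℕ) (β : Fin m ⊕ Fin m ↪ Fin k) (φ : ι → Fml k p f) : Fml k p f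
  | quant (τ : Voc) (C : Cls p f τ) (m : ℕ) (βδ : Fin m ↪ Fin k) (δ : Fml k p f)
      (βε : Fin m ⊕ Fin m ↪ Fin k) (ε : Fml k p f)
      (βρ : ∀ i, Fin (τ.ar i) × Fin m ↪ Fin k) (ρ : τ.Sym → Fml k p f) : Fml k p f

/-- The universe of the structure defined by `δ` and `ε`: the elements of `T` with the property `δ`
modulo the equivalence relation generated by `ε`. -/
def OutT {T : Type} (δ : T → Prop) (ε : T → T → Prop) : Type :=
  Quot fun a b : {t : T // δ t} => ε a.1 b.1

/-- The structure defined by `δ`, `ε` and the relations `ρ`: a relation holds for classes if it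
holds for some representatives. -/
def outStr {τ : Voc} {T : Type} (δ : T → Prop) (ε : T → T → Prop)
    (ρ : ∀ i : τ.Sym, (Fin (τ.ar i) → T) → Prop) : Str τ (OutT δ ε) :=
  fun i q => ∃ a : Fin (τ.ar i) → {t : T // δ t}, (∀ j, Quot.mk _ (a j) = q j) ∧
    ρ i fun j => (a j).1

/-- The assignment `S` after the values of the variables `β x` have been replaced by `a x`. -/
noncomputable def put {k : ℕ} {α V : Type} (β : α ↪ Fin k) (S : Fin k → V) (a : α → V) :
    Fin k → V :=
  Function.extend β a S

open Classical in
/-- The truth value of a formula in the structure on `V` with the binary relation `E` and the unary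
relation `U` under the assignment `S`. -/
noncomputable def Sat {V : Type} [Fintype V] (E : V → V → Prop) (U : V → Prop) {k p : ℕ} {f : ℕ → ℕ} :
    Fml k p f → (Fin k → V) → Prop
  | .eq i j, S => S i = S j
  | .adj i j, S => E (S i) (S j)
  | .mark i, S => U (S i)
  | .not φ, S => ¬ Sat E U φ S
  | .all _ φ, S => ∀ i, Sat E U (φ i) S
  | .count n i φ, S => n ≤ Nat.card {x : V // Sat E U φ (Function.update S i x)}
  | @Fml.lin _ _ _ K _ _ _ _ C m β φ, S => C.Mem (Fin m → V) fun i => Matrix.of fun x y =>
      if Sat E U (φ i) (put β S (Sum.elim x y)) then (1 : K) else 0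
  | .quant _ C m βδ δ βε ε βρ ρ, S => C.Mem _ (outStr (T := Fin m → V)
      (fun a => Sat E U δ (put βδ S a)) (fun a b => Sat E U ε (put βε S (Sum.elim a b)))
      fun i a => Sat E U (ρ i) (put (βρ i) S fun x => a x.1 x.2))

/-- An interpretation of structures over the vocabulary `τ` in structures with a binary and a unary
relation: formulas which define the universe as a set of `m`-tuples modulo an equivalence relation,
and the relations. The variables which are not used for the tuples are parameters. -/
structure Interp (k p : ℕ) (f : ℕ → ℕ) (τ : Voc) : Type 1 where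
  m : ℕ
  βδ : Fin m ↪ Fin k
  δ : Fml k p f
  βε : Fin m ⊕ Fin m ↪ Fin k
  ε : Fml k p f
  βρ : ∀ i, Fin (τ.ar i) × Fin m ↪ Fin k
  ρ : τ.Sym → Fml k p f

/-- The universe of the output of the interpretation. -/
def Interp.Carrier {V : Type} [Fintype V] {k p : ℕ} {f : ℕ → ℕ} {τ : Voc}
    (I : Interp k p f τ)
    (E : V → V → Prop) (U : V → Prop) (S : Fin k → V) : Type :=
  OutT (T := Fin I.m → V) (fun a => Sat E U I.δ (put I.βδ S a))
    fun a b => Sat E U I.ε (put I.βε S (Sum.elim a b))

/-- The output of the interpretation. -/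
def Interp.out {V : Type} [Fintype V] {k p : ℕ} {f : ℕ → ℕ} {τ : Voc}
    (I : Interp k p f τ)
    (E : V → V → Prop) (U : V → Prop) (S : Fin k → V) : Str τ (I.Carrier E U S) :=
  outStr (T := Fin I.m → V) (fun a => Sat E U I.δ (put I.βδ S a))
    (fun a b => Sat E U I.ε (put I.βε S (Sum.elim a b)))
    fun i a => Sat E U (I.ρ i) (put (I.βρ i) S fun x => a x.1 x.2)

/-- The structures `(V, E, U)` and `(V', E', U')` are alike for the logic: there is a bijection
between the assignments which preserves the truth of all formulas, and the isomorphism type of the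
output of all interpretations for which the automorphism group of the output has `p`-rank at most
`f n`, where `n` is the number of elements of the output. -/
def Like (k p : ℕ) (f : ℕ → ℕ) {V V' : Type} [Fintype V] [Fintype V'] (E : V → V → Prop) (U : V → Prop)
    (E' : V' → V' → Prop) (U' : V' → Prop) : Prop :=
  ∃ ψ : (Fin k → V) ≃ (Fin k → V'),
    (∀ (φ : Fml k p f) (S : Fin k → V), Sat E U φ S ↔ Sat E' U' φ (ψ S)) ∧
    ∀ (τ : Voc) (I : Interp k p f τ) (S : Fin k → V),
      RankLE p (f (Nat.card (I.Carrier E U S))) (I.out E U S) ∨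
        RankLE p (f (Nat.card (I.Carrier E' U' (ψ S)))) (I.out E' U' (ψ S)) →
      ∃ e : I.Carrier E U S ≃ I.Carrier E' U' (ψ S),
        IsIso (I.out E U S) (I.out E' U' (ψ S)) e

end Pool.Agent.K4H86.OR
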