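import Pool.Agent.K4H86.OR.FamP2

/-!
# The main theorem
-/

set_option autoImplicit false
set_option linter.unusedSectionVars false

namespace Pool.Agent.K4H86.OR

open Finset Pool.Agent.Y598.CG Pool.Agent.Y598.VT Pool.Agent.Y598.IM

/-- The twists. -/
noncomputable def twp (p r : ℕ) (c : Bool) : Lp r → ZMod p := if c then Pi.single 1 1 else 0

theorem or_main (p : ℕ) (hp : p.Prime) (f : ℕ → ℕ) (k N : ℕ) (hk : 1 ≤ k)
    (hf : ∀ j ≤ (209952 * p ^ 2 * (N * (Nat.log 2 N + 1))) ^ k, k * (f j + 1) ≤ N) :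
    ∃ (V : Type) (_ : Fintype V) (G H : SimpleGraph V),
      2 * Fintype.card V ≤ 209952 * p ^ 2 * (N * (Nat.log 2 N + 1)) ∧
      (∀ v, (G.neighborSet v).ncard ≤ 3 * p ∧ (H.neighborSet v).ncard ≤ 3 * p) ∧
      IsEmpty (G ≃g H) ∧
      Like k p f G.Adj (fun _ => False) H.Adj (fun _ => False) ∧
      Like k p f (G ⊕g G).Adj (fun x => x.isLeft) (G ⊕g H).Adj (fun x => x.isLeft) := by
  have : Fact p.Prime := ⟨hp⟩
  have : NeZero p := ⟨hp.ne_zero⟩
  obtain ⟨M, hM⟩ : ∃ M, M = 209952 * p ^ 2 * (N * (Nat.log 2 N + 1)) := ⟨_, rfl⟩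
  rw [← hM] at hf ⊢
  have hN1 : k ≤ N := by
    have h1 := hf 0 (Nat.zero_le _)
    have h2 : k * 1 ≤ k * (f 0 + 1) := Nat.mul_le_mul_left _ (by omega)
    omega
  obtain ⟨s, hs⟩ : ∃ s, s + 1 = N / k := by
    have h1 : 1 ≤ N / k := (Nat.one_le_div_iff (by omega)).2 hN1
    exact ⟨N / k - 1, by omega⟩
  have hsN : k * (s + 1) ≤ N := by
    rw [hs]
    exact Nat.mul_div_le N k
  have hfs : ∀ j ≤ M ^ k, f j ≤ s := by
    intro j hj
    have h1 := hf j hj
    have h2 : f j + 1 ≤ N / k := by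
      rw [Nat.le_div_iff_mul_le (by omega), mul_comm]
      exact h1
    omega
  obtain ⟨g, hg⟩ : ∃ g, g = Nat.log 3 N := ⟨_, rfl⟩
  have hN2 : N < 3 ^ (g + 1) := by
    rw [hg]
    exact Nat.lt_pow_succ_log_self (by norm_num) N
  have hN3 : 3 ^ g ≤ N := by
    rw [hg]
    exact Nat.pow_log_le_self 3 (by omega)
  have hgl : g ≤ Nat.log 2 N := by
    rw [hg]
    exact Nat.log_anti_left (by norm_num) (by norm_num)
  obtain ⟨r, hr0⟩ : ∃ r, r = g + 8 := ⟨_, rfl⟩
  have hr : 4 ≤ r := by omega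
  have hr3 : 3 ≤ r := by omega
  have : NeZero r := ⟨by omega⟩
  have hn : 2 ≤ r * 3 ^ (r - 1) := by
    have : 1 ≤ 3 ^ (r - 1) := Nat.one_le_pow _ _ (by norm_num)
    calc 2 ≤ r * 1 := by omega
      _ ≤ _ := Nat.mul_le_mul_left _ this
  have hnon : IsEmpty (gp (twp p r false) ≃g gp (twp p r true)) := by
    refine no_iso hr3 _ ?_
    show ∑ v : Lp r, (Pi.single (1 : Lp r) (1 : ZMod p) : Lp r → ZMod p) v ≠ 0
    rw [Finset.sum_pi_single' (1 : Lp r) (1 : ZMod p) Finset.univ, if_pos (Finset.mem_univ _)]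
    exact one_ne_zero
  have hinj : Function.Injective fun b => (gp (twp p r b)).Adj := by
    intro b b' hbb
    have h1 : gp (twp p r b) = gp (twp p r b') := SimpleGraph.ext hbb
    cases b <;> cases b'
    · rfl
    · rw [← h1] at hnon
      exact (hnon.false (RelIso.refl _)).elim
    · rw [h1] at hnon
      exact (hnon.false (RelIso.refl _)).elim
    · rfl
  let F := pFam hr hn (twp p r) hinj
  let F2 := F.addFixed (gp (twp p r false)).Adj
  have hglob : Globalises F := pFam_glob hr hn (twp p r) hinj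
  have hglob2 : Globalises F2 := hglob
  have hK : 2 * k * (s + 5) ≤ 3 ^ (r - 4) := by
    have h1 : r - 4 = g + 1 + 3 := by omega
    have h2 : 3 ^ (g + 1 + 3) = 27 * 3 ^ (g + 1) := by
      rw [pow_add]
      ring
    have h3 : 2 * k * (s + 5) ≤ 10 * N := by
      calc 2 * k * (s + 5) ≤ 2 * k * (5 * (s + 1)) := Nat.mul_le_mul_left _ (by omega)
        _ = 10 * (k * (s + 1)) := by ring
        _ ≤ _ := Nat.mul_le_mul_left _ hsN
    rw [h1, h2]
    omega
  have htor : ∀ M : Ed r → ZMod p, p • M = 0 := by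
    intro M
    funext e
    rw [Pi.smul_apply, Pi.zero_apply]
    exact ZModModule.char_nsmul_eq_zero p (M e)
  have hX : ∀ (K : Type) [Field K], (p : K) ≠ 0 →
      (Fintype.card (Ed r → ZMod p) : K) ≠ 0 := by
    intro K _ h3
    rw [Fintype.card_fun, ZMod.card, Nat.cast_pow]
    exact pow_ne_zero _ h3
  have hcard : 2 * Fintype.card (Vp p r) ≤ M := by
    rw [hM, Fintype.card_prod, Fintype.card_prod (ZMod p), ZMod.card, card_Lp]
    calc 2 * (2 * (r * 3 ^ r) * (p * p)) = 4 * p ^ 2 * (r * 3 ^ r) := by ring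
      _ = 4 * p ^ 2 * ((g + 8) * (6561 * 3 ^ g)) := by
        rw [hr0, pow_add]
        ring
      _ ≤ 4 * p ^ 2 * ((8 * (Nat.log 2 N + 1)) * (6561 * N)) := by
        refine Nat.mul_le_mul_left _ (Nat.mul_le_mul (by omega) (Nat.mul_le_mul_left _ hN3))
      _ = _ := by ring
  refine ⟨Vp p r, inferInstance, gp (twp p r false), gp (twp p r true), hcard,
    fun v => ⟨ncard_neighbours _ v, ncard_neighbours _ v⟩, hnon, ?_, ?_⟩
  · exact like (F := F) (U := fun _ => False) (fun M x => Iff.rfl) hp htor hX hglob hK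
      (fun j hj => hfs j (hj.trans (Nat.pow_le_pow_left (by omega) k))) false true
  · have h1 := like (F := F2) (U := fun x => x.isLeft) (k := k) (p := p) (s := s) (f := f) (by
      rintro M (x | x)
      · exact Iff.rfl
      · exact Iff.rfl) hp htor hX hglob2 hK (fun j hj => hfs j (hj.trans
        (Nat.pow_le_pow_left (by
          rw [Fintype.card_sum]
          omega) k))) false true
    rw [sum_adj, sum_adj]
    exact h1

end Pool.Agent.K4H86.OR
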